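import Mathlib
import Pool.Agent.K1H34.UHC.Phase

set_option autoImplicit false

/-!
# One constant for all three-colourable graphs, all graphs `G`: interface of the pieces
-/

namespace Pool.Agent.K1H34.UNI

open Finset Classical

/-! ## Definitions -/

section defs

variable {X : Type} [Fintype X]

/-- the neighbours of `v` -/
noncomputable def nb (Γ : SimpleGraph X) (v : X) : Finset X := univ.filter (fun u => Γ.Adj v u)

/-- probability that the set `A` is activated, if `v` is activated with probability `q * x v` -/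
noncomputable def Pr (q : ℝ) (x : X → ℝ) (A : Finset X) : ℝ :=
  (∏ v ∈ A, q * x v) * ∏ v ∈ univ \ A, (1 - q * x v)

/-- total weight of the neighbours -/
noncomputable def es (Γ : SimpleGraph X) (x : X → ℝ) (v : X) : ℝ := ∑ u ∈ nb Γ v, x u

/-- weighted number of copies of `K_{t,t}` (homomorphisms) in the neighbourhood of `v` -/
noncomputable def KK (Γ : SimpleGraph X) (t : ℕ) (x : X → ℝ) (v : X) : ℝ :=
  ∑ a : Fin t → X, ∑ b : Fin t → X,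
    if (∀ i, a i ∈ nb Γ v) ∧ (∀ j, b j ∈ nb Γ v) ∧ (∀ i j, Γ.Adj (a i) (b j)) then
      (∏ i, x (a i)) * ∏ j, x (b j) else 0

/-- weighted number of edges (twice) in the neighbourhood of `v` -/
noncomputable def TT (Γ : SimpleGraph X) (x : X → ℝ) (v : X) : ℝ :=
  ∑ u ∈ nb Γ v, ∑ w ∈ nb Γ v ∩ nb Γ u, x u * x w

/-- the event `P` is determined by the coordinates in `S` -/
def Dep {T C : Type} (P : (T → C) → Prop) (S : Finset T) : Prop :=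
  ∀ ω ω' : T → C, (∀ t ∈ S, ω t = ω' t) → (P ω → P ω')

end defs

/-! ## Pieces -/

/-- symmetric local lemma for a product of weighted finite spaces -/
def S_WLLL : Prop :=
  ∀ (T C ι : Type) [Fintype T] [Fintype C] [Fintype ι] (w : C → ℝ), (∀ c, 0 ≤ w c) →
    ∑ c, w c = 1 → ∀ (B : ι → (T → C) → Prop) (S : ι → Finset T), (∀ i, Dep (B i) (S i)) →
    ∀ (p : ℝ) (D : ℕ), 0 ≤ p →
    (∀ i, ∑ ω ∈ univ.filter (fun ω : T → C => B i ω), ∏ t, w (ω t) ≤ p) →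
    (∀ i, (univ.filter (fun j => ¬ Disjoint (S i) (S j))).card ≤ D) →
    4 * p * D ≤ 1 → 1 ≤ D → ∃ ω : T → C, ∀ i, ¬ B i ω

/-- concentration for the part of `Nn` not covered by `k` independent random sets -/
def S_CONC : Prop :=
  ∀ (Ω V : Type) [Fintype Ω] [Fintype V] (W : Ω → ℝ), (∀ ω, 0 ≤ W ω) → ∑ ω, W ω = 1 →
    ∀ (f : Ω → Finset V) (Nn : Finset V) (Bd τ : ℝ), 0 < Bd → 0 ≤ τ →
    (∀ u ∈ Nn, τ ≤ ∑ ω ∈ univ.filter (fun ω => u ∈ f ω ∧ ((f ω ∩ Nn).card : ℝ) ≤ Bd), W ω) →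
    ∀ (k : ℕ) (y : ℝ),
    ∑ ω ∈ univ.filter (fun ω : Fin k → Ω =>
        y ≤ ((Nn \ univ.biUnion (fun j => f (ω j))).card : ℝ)), ∏ j, W (ω j) ≤
      Real.exp (-((y - Real.exp (-(k * τ / 2)) * (Nn.card : ℝ)) / Bd))

/-- few copies of `K_{t,t}` in neighbourhoods, on average -/
def S_MASS : Prop :=
  ∀ (X : Type) [Fintype X] (Γ : SimpleGraph X) (t s : ℕ), 1 ≤ t → UHC.Rare Γ t s →
    ∀ (x : X → ℝ) (M E : ℝ), 0 ≤ M → 0 ≤ E → (∀ v, 0 ≤ x v) → (∀ v, x v ≤ M) →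
    (∀ v, 0 < x v → es Γ x v ≤ E) →
    ∑ v, x v * KK Γ t x v ≤ (s + t ^ 2) * M * E ^ (2 * t - 1) * ∑ v, x v

/-- few copies of `K_{t,t}` imply few edges -/
def S_KST : Prop :=
  ∀ (X : Type) [Fintype X] (Γ : SimpleGraph X) (t : ℕ), 1 ≤ t →
    ∀ (x : X → ℝ) (v : X) (κ E : ℝ), 0 < κ → 0 < E → (∀ v, 0 ≤ x v) → es Γ x v ≤ E →
    TT Γ x v ≤ κ * E ^ 2 + KK Γ t x v / (E ^ (2 * t - 2) * κ ^ t ^ 2)

/-- the levels, from the fixed point theorem of Brouwer -/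
def S_LEV : Prop :=
  ∀ (V : Type) [Fintype V] (G : SimpleGraph V) (L : ℕ)
    (H : (V × Fin L → ℝ) → V × Fin L → ℝ) (a h d B : ℝ), Continuous H →
    (∀ y : V × Fin L → ℝ, (∀ p, 0 ≤ y p ∧ y p ≤ 1) → ∀ p, 0 ≤ H y p) →
    (∀ y : V × Fin L → ℝ, (∀ p, 0 ≤ y p ∧ y p ≤ 1) → ∀ l, ∑ v, H y (v, l) ≤ a * ∑ v, y (v, l)) →
    (∀ v, ((nb G v).card : ℝ) ≤ d) → 0 < h → 0 < B → 0 ≤ a → 0 ≤ d → 4 * a * (d / B + 1) ≤ h →
    1 ≤ L → Fintype.card V < 2 ^ (L - 1) →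
    ∃ (cl : V → Fin L) (y : V × Fin L → ℝ), (∀ p, 0 ≤ y p ∧ y p ≤ 1) ∧
      (∀ v, y (v, cl v) = 1) ∧ (∀ v, H y (v, cl v) ≤ h) ∧
      ∀ v, (((nb G v).filter (fun u => (cl v : ℕ) + 2 ≤ cl u)).card : ℝ) ≤ B

/-- a finite weighted space with events of given weights -/
def S_SRC : Prop :=
  ∀ P : Finset ℝ, (∀ p ∈ P, 0 ≤ p ∧ p ≤ 1) →
    ∃ (C : Type) (_ : Fintype C) (w : C → ℝ) (E : ℝ → Finset C), (∀ c, 0 ≤ w c) ∧
      ∑ c, w c = 1 ∧ ∀ p ∈ P, ∑ c ∈ E p, w c = p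

/-- independent events of given weights -/
def S_ONE : Prop :=
  ∀ (X C : Type) [Fintype X] [Fintype C] (w : C → ℝ) (E : X → Finset C) (q : ℝ) (x : X → ℝ),
    ∑ c, w c = 1 → (∀ v, ∑ c ∈ E v, w c = q * x v) → ∀ f : Finset X → ℝ,
    ∑ ω : X → C, (∏ v, w (ω v)) * f (univ.filter (fun v => ω v ∈ E v)) =
      ∑ A : Finset X, Pr q x A * f A

end Pool.Agent.K1H34.UNI
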