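import Mathlib
import Pool.Agent.K1H34.UNI.Step

set_option autoImplicit false

/-!
# The one step operator, the potential function, and survival
-/

namespace Pool.Agent.K1H34.UNI

open Finset Classical

variable {X : Type} [Fintype X] {Γ : SimpleGraph X} {P : Par} {s : St X}

theorem Inv.Pr_nonneg (hP : P.Ok) (h : Inv Γ P s) (A : Finset X) : 0 ≤ Pr P.q s.1 A :=
  UNI.Pr_nonneg (fun v => h.q_nonneg hP v) (fun v => by linarith [h.q_half hP v]) A

theorem Op_mono (hP : P.Ok) (h : Inv Γ P s) {f g : St X → ℝ}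
    (hfg : ∀ s', Inv Γ P s' → f s' ≤ g s') : Op Γ P f s ≤ Op Γ P g s :=
  Finset.sum_le_sum fun A _ => mul_le_mul_of_nonneg_left (hfg _ (h.nx hP A)) (h.Pr_nonneg hP A)

theorem iter_mono (hP : P.Ok) {f g : St X → ℝ} (hfg : ∀ s', Inv Γ P s' → f s' ≤ g s') (n : ℕ) :
    ∀ s, Inv Γ P s → (Op Γ P)^[n] f s ≤ (Op Γ P)^[n] g s := by
  induction n with
  | zero => exact hfg
  | succ n ih =>
    intro s h
    rw [Function.iterate_succ_apply', Function.iterate_succ_apply']
    exact Op_mono hP h ih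

theorem Op_add (f g : St X → ℝ) : Op Γ P (fun s => f s + g s) = fun s => Op Γ P f s + Op Γ P g s := by
  funext s
  unfold Op
  rw [← Finset.sum_add_distrib]
  exact Finset.sum_congr rfl fun A _ => mul_add _ _ _

theorem Op_smul (c : ℝ) (f : St X → ℝ) : Op Γ P (fun s => c * f s) = fun s => c * Op Γ P f s := by
  funext s
  unfold Op
  rw [Finset.mul_sum]
  exact Finset.sum_congr rfl fun A _ => by ring

theorem Op_const (c : ℝ) : Op Γ P (fun _ => c) = fun _ => c := by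
  funext s
  unfold Op
  rw [← Finset.sum_mul, sum_Pr, one_mul]

theorem iter_add (n : ℕ) (f g : St X → ℝ) :
    (Op Γ P)^[n] (fun s => f s + g s) = fun s => (Op Γ P)^[n] f s + (Op Γ P)^[n] g s := by
  induction n generalizing f g with
  | zero => rfl
  | succ n ih =>
    rw [Function.iterate_succ_apply, Function.iterate_succ_apply, Function.iterate_succ_apply,
      Op_add, ih]

theorem iter_smul (n : ℕ) (c : ℝ) (f : St X → ℝ) :
    (Op Γ P)^[n] (fun s => c * f s) = fun s => c * (Op Γ P)^[n] f s := by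
  induction n generalizing f with
  | zero => rfl
  | succ n ih =>
    rw [Function.iterate_succ_apply, Function.iterate_succ_apply, Op_smul, ih]

theorem iter_const (n : ℕ) (c : ℝ) : (Op Γ P)^[n] (fun _ => c) = fun _ => c := by
  induction n with
  | zero => rfl
  | succ n ih => rw [Function.iterate_succ_apply, Op_const, ih]

theorem iter_sum {ι : Type} (T : Finset ι) (n : ℕ) (f : ι → St X → ℝ) :
    (Op Γ P)^[n] (fun s => ∑ i ∈ T, f i s) = fun s => ∑ i ∈ T, (Op Γ P)^[n] (f i) s := by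
  induction T using Finset.induction_on with
  | empty =>
    simp only [Finset.sum_empty]
    exact iter_const n 0
  | insert a T ha ih =>
    simp only [Finset.sum_insert ha]
    rw [iter_add, ih]

theorem iter_nonneg (hP : P.Ok) {f : St X → ℝ} (hf : ∀ s', Inv Γ P s' → 0 ≤ f s') (n : ℕ)
    (h : Inv Γ P s) : 0 ≤ (Op Γ P)^[n] f s := by
  have := iter_mono hP (f := fun _ => 0) (g := f) hf n s h
  rwa [iter_const] at this

/-- the expected weight does not increase -/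
theorem Op_x_le (hP : P.Ok) (h : Inv Γ P s) (v : X) : Op Γ P (fun s => s.1 v) s ≤ s.1 v := by
  have h1 := sum_pre hP h v
  have h2 : Op Γ P (fun s => s.1 v) s ≤ ∑ A : Finset X, Pr P.q s.1 A * pre Γ P.q s.1 A v :=
    Finset.sum_le_sum fun A _ => mul_le_mul_of_nonneg_left (h.nx_le A v) (h.Pr_nonneg hP A)
  rw [h1] at h2
  have h3 := mul_nonneg (h v).1 (h.q_nonneg hP v)
  linarith

theorem iter_x_le (hP : P.Ok) (v : X) (n : ℕ) :
    ∀ s, Inv Γ P s → (Op Γ P)^[n] (fun s => s.1 v) s ≤ s.1 v := by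
  induction n with
  | zero => intro s _; exact le_rfl
  | succ n ih =>
    intro s h
    rw [Function.iterate_succ_apply']
    exact (Op_mono hP h ih).trans (Op_x_le hP h v)

theorem sum_pre_e (hP : P.Ok) (h : Inv Γ P s) (v : X) :
    ∑ A : Finset X, Pr P.q s.1 A * (pre Γ P.q s.1 A v * ∑ u ∈ nb Γ v, pre Γ P.q s.1 A u) ≤
      s.1 v * es Γ s.1 v + 2 * P.q * (s.1 v * TT Γ s.1 v) := by
  rcases (h v).1.eq_or_lt with h0 | h0
  · have h1 : ∀ A : Finset X, pre Γ P.q s.1 A v = 0 := by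
      intro A
      unfold pre
      rw [← h0]; simp
    simp [h1, ← h0]
  · have h1 : ∑ A : Finset X, Pr P.q s.1 A *
        (pre Γ P.q s.1 A v * ∑ u ∈ nb Γ v, pre Γ P.q s.1 A u) =
        ∑ u ∈ nb Γ v, ∑ A : Finset X, Pr P.q s.1 A *
          (pre Γ P.q s.1 A v * pre Γ P.q s.1 A u) := by
      rw [Finset.sum_comm]
      refine Finset.sum_congr rfl fun A _ => ?_
      rw [Finset.mul_sum, Finset.mul_sum]
    rw [h1]
    refine (Finset.sum_le_sum fun u hu => sum_pre_pre hP h hu h0).trans (le_of_eq ?_)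
    rw [Finset.sum_add_distrib, ← Finset.mul_sum, ← Finset.mul_sum, ← Finset.mul_sum]
    rfl

/-- growth of the correlation of a vertex with its neighbours -/
theorem Op_xe_le (hP : P.Ok) (h : Inv Γ P s) (v : X) :
    Op Γ P (fun s => s.1 v * es Γ s.1 v) s ≤
      s.1 v * es Γ s.1 v + 2 * P.q * (s.1 v * TT Γ s.1 v) := by
  refine le_trans (Finset.sum_le_sum fun A _ => mul_le_mul_of_nonneg_left ?_
    (h.Pr_nonneg hP A)) (sum_pre_e hP h v)
  exact mul_le_mul (h.nx_le A v) (h.es_nx_le A v)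
    (Finset.sum_nonneg fun u _ => h.nx_nonneg A u) (h.pre_nonneg A v)

/-- the potential function -/
noncomputable def Psi (Γ : SimpleGraph X) (P : Par) (v : X) (s : St X) : ℝ :=
  s.1 v * (1 - s.2 v / P.ph - es Γ s.1 v / P.eh)

theorem Psi_nx (hP : P.Ok) (h : Inv Γ P s) (v : X) (A : Finset X) :
    pre Γ P.q s.1 A v * (1 - (s.2 v + P.q * es Γ s.1 v) / P.ph -
      (∑ u ∈ nb Γ v, pre Γ P.q s.1 A u) / P.eh) ≤ Psi Γ P v (nx Γ P s A) := by
  unfold Psi
  rw [nx_snd]
  set φ := (s.2 v + P.q * es Γ s.1 v) / P.ph with hφ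
  set e' := ∑ u ∈ nb Γ v, pre Γ P.q s.1 A u with he'
  have hφ0 : 0 ≤ φ := div_nonneg
    (add_nonneg (h v).2.1 (mul_nonneg hP.q0.le (h.es_nonneg v))) hP.p0.le
  have he0 : 0 ≤ e' := Finset.sum_nonneg fun u _ => h.pre_nonneg A u
  have hx := h.nx_le A v
  have hx0 := h.nx_nonneg A v
  have hle : es Γ (nx Γ P s A).1 v / P.eh ≤ e' / P.eh :=
    div_le_div_of_nonneg_right (h.es_nx_le A v) hP.e0.le
  by_cases hc : cc Γ P s A v = 1
  · have h1 : (nx Γ P s A).1 v = pre Γ P.q s.1 A v := by rw [nx_fst, hc, mul_one]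
    rw [← h1]
    exact mul_le_mul_of_nonneg_left (by linarith) hx0
  · have h1 : 1 - φ - e' / P.eh ≤ 0 := by
      have h2 : cut φ ≠ 1 ∨ cut (e' / P.eh) ≠ 1 := by
        by_contra hcon
        push Not at hcon
        apply hc
        unfold cc
        rw [← hφ, ← he', hcon.1, hcon.2, one_mul]
      have h3 : 0 ≤ e' / P.eh := div_nonneg he0 hP.e0.le
      rcases h2 with h2 | h2
      · have := one_lt_of_cut h2
        linarith
      · have := one_lt_of_cut h2
        linarith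
    calc pre Γ P.q s.1 A v * (1 - φ - e' / P.eh) ≤ (nx Γ P s A).1 v * (1 - φ - e' / P.eh) :=
          mul_le_mul_of_nonpos_right hx h1
      _ ≤ _ := mul_le_mul_of_nonneg_left (by linarith) hx0

theorem Op_Psi (hP : P.Ok) (h : Inv Γ P s) (v : X) :
    Psi Γ P v s - P.q * P.M * s.1 v - P.q / P.ph * (s.1 v * es Γ s.1 v) -
      2 * P.q / P.eh * (s.1 v * TT Γ s.1 v) ≤ Op Γ P (Psi Γ P v) s := by
  have h1 : ∑ A : Finset X, Pr P.q s.1 A *
      (pre Γ P.q s.1 A v * (1 - (s.2 v + P.q * es Γ s.1 v) / P.ph -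
        (∑ u ∈ nb Γ v, pre Γ P.q s.1 A u) / P.eh)) ≤ Op Γ P (Psi Γ P v) s :=
    Finset.sum_le_sum fun A _ => mul_le_mul_of_nonneg_left (Psi_nx hP h v A)
      (h.Pr_nonneg hP A)
  refine le_trans ?_ h1
  have h2 : ∑ A : Finset X, Pr P.q s.1 A *
      (pre Γ P.q s.1 A v * (1 - (s.2 v + P.q * es Γ s.1 v) / P.ph -
        (∑ u ∈ nb Γ v, pre Γ P.q s.1 A u) / P.eh)) =
      (1 - (s.2 v + P.q * es Γ s.1 v) / P.ph) *
        (∑ A : Finset X, Pr P.q s.1 A * pre Γ P.q s.1 A v) -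
      (∑ A : Finset X, Pr P.q s.1 A *
        (pre Γ P.q s.1 A v * ∑ u ∈ nb Γ v, pre Γ P.q s.1 A u)) / P.eh := by
    rw [Finset.mul_sum, Finset.sum_div, ← Finset.sum_sub_distrib]
    refine Finset.sum_congr rfl fun A _ => ?_
    ring
  rw [h2, sum_pre hP h v]
  have h3 := div_le_div_of_nonneg_right (sum_pre_e hP h v) hP.e0.le
  have h4 : 0 ≤ (s.2 v + P.q * es Γ s.1 v) / P.ph := div_nonneg
    (add_nonneg (h v).2.1 (mul_nonneg hP.q0.le (h.es_nonneg v))) hP.p0.le
  have h5 : 0 ≤ P.q * s.1 v * s.1 v := mul_nonneg (h.q_nonneg hP v) (h v).1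
  have h6 : P.q * s.1 v * s.1 v ≤ P.q * P.M * s.1 v :=
    mul_le_mul_of_nonneg_right (mul_le_mul_of_nonneg_left (h.le_M v) hP.q0.le) (h v).1
  have h7 : 0 ≤ (s.2 v + P.q * es Γ s.1 v) / P.ph * (P.q * s.1 v * s.1 v) := mul_nonneg h4 h5
  have h8 : (s.1 v * es Γ s.1 v + 2 * P.q * (s.1 v * TT Γ s.1 v)) / P.eh =
      s.1 v * (es Γ s.1 v / P.eh) + 2 * P.q / P.eh * (s.1 v * TT Γ s.1 v) := by ring
  have h9 : (1 - (s.2 v + P.q * es Γ s.1 v) / P.ph) * (s.1 v * (1 - P.q * s.1 v)) =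
      s.1 v * (1 - s.2 v / P.ph) - P.q / P.ph * (s.1 v * es Γ s.1 v) - P.q * s.1 v * s.1 v +
        (s.2 v + P.q * es Γ s.1 v) / P.ph * (P.q * s.1 v * s.1 v) := by ring
  rw [h8] at h3
  rw [h9]
  unfold Psi
  have h10 : s.1 v * (1 - s.2 v / P.ph - es Γ s.1 v / P.eh) =
      s.1 v * (1 - s.2 v / P.ph) - s.1 v * (es Γ s.1 v / P.eh) := by ring
  rw [h10]
  linarith

theorem TT_nonneg {x : X → ℝ} (h : ∀ v, 0 ≤ x v) (v : X) : 0 ≤ TT Γ x v :=
  Finset.sum_nonneg fun u _ => Finset.sum_nonneg fun w _ => mul_nonneg (h u) (h w)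

/-- survival of a vertex of initial weight one -/
theorem surv (hP : P.Ok) (h : Inv Γ P s) {v : X} (hx : s.1 v = 1) (hφ : s.2 v = 0) {d Θ : ℝ}
    (hd : es Γ s.1 v ≤ d) (S : ℕ)
    (hΘ : ∑ j ∈ range S, (Op Γ P)^[j] (fun s => s.1 v * TT Γ s.1 v) s ≤ Θ) (n : ℕ) (hn : n ≤ S) :
    1 - d / P.eh - P.q * P.M * S - P.q * S / P.ph * (d + 2 * P.q * Θ) - 2 * P.q / P.eh * Θ ≤
      (Op Γ P)^[n] (fun s => s.1 v) s := by
  have hT0 : ∀ j, 0 ≤ (Op Γ P)^[j] (fun s => s.1 v * TT Γ s.1 v) s := fun j =>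
    iter_nonneg hP (fun s' h' => mul_nonneg (h' v).1 (TT_nonneg (fun u => (h' u).1) v)) j h
  have hTn : ∀ n, n ≤ S → ∑ j ∈ range n, (Op Γ P)^[j] (fun s => s.1 v * TT Γ s.1 v) s ≤ Θ :=
    fun n hn => le_trans (Finset.sum_le_sum_of_subset_of_nonneg
      (Finset.range_subset_range.2 hn) fun j _ _ => hT0 j) hΘ
  have hΘ0 : 0 ≤ Θ := by
    have := hTn 0 (Nat.zero_le _)
    simpa using this
  -- correlation with the neighbours
  have hxe : ∀ n, n ≤ S → (Op Γ P)^[n] (fun s => s.1 v * es Γ s.1 v) s ≤ d + 2 * P.q * Θ := by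
    have h1 : ∀ n, (Op Γ P)^[n] (fun s => s.1 v * es Γ s.1 v) s ≤ s.1 v * es Γ s.1 v +
        2 * P.q * ∑ j ∈ range n, (Op Γ P)^[j] (fun s => s.1 v * TT Γ s.1 v) s := by
      intro n
      induction n with
      | zero => simp
      | succ n ih =>
        rw [Function.iterate_succ_apply]
        have h2 := iter_mono hP (f := Op Γ P fun s => s.1 v * es Γ s.1 v)
          (g := fun s => s.1 v * es Γ s.1 v + 2 * P.q * (s.1 v * TT Γ s.1 v))
          (fun s' h' => Op_xe_le hP h' v) n s h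
        rw [iter_add, iter_smul] at h2
        rw [Finset.sum_range_succ, mul_add]
        linarith
    intro n hn
    refine (h1 n).trans ?_
    rw [hx, one_mul]
    have := mul_le_mul_of_nonneg_left (hTn n hn) (by linarith [hP.q0] : 0 ≤ 2 * P.q)
    linarith
  -- potential
  have hpsi : ∀ n, Psi Γ P v s - P.q * P.M * ∑ j ∈ range n, (Op Γ P)^[j] (fun s => s.1 v) s -
      P.q / P.ph * ∑ j ∈ range n, (Op Γ P)^[j] (fun s => s.1 v * es Γ s.1 v) s -
      2 * P.q / P.eh * ∑ j ∈ range n, (Op Γ P)^[j] (fun s => s.1 v * TT Γ s.1 v) s ≤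
      (Op Γ P)^[n] (Psi Γ P v) s := by
    intro n
    induction n with
    | zero => simp
    | succ n ih =>
      rw [Function.iterate_succ_apply]
      have h2 := iter_mono hP (g := Op Γ P (Psi Γ P v))
        (f := fun s => Psi Γ P v s + (-(P.q * P.M)) * s.1 v +
          (-(P.q / P.ph)) * (s.1 v * es Γ s.1 v) +
          (-(2 * P.q / P.eh)) * (s.1 v * TT Γ s.1 v))
        (fun s' h' => by
          have := Op_Psi hP h' v
          linarith) n s h
      rw [iter_add, iter_add, iter_add, iter_smul, iter_smul, iter_smul] at h2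
      rw [Finset.sum_range_succ, Finset.sum_range_succ, Finset.sum_range_succ]
      linarith
  have h3 := hpsi n
  have h4 : (Op Γ P)^[n] (Psi Γ P v) s ≤ (Op Γ P)^[n] (fun s => s.1 v) s := by
    refine iter_mono hP (fun s' h' => ?_) n s h
    unfold Psi
    have h5 := (h' v).1
    have h6 : 0 ≤ s'.2 v / P.ph := div_nonneg (h' v).2.1 hP.p0.le
    have h7 : 0 ≤ es Γ s'.1 v / P.eh := div_nonneg (h'.es_nonneg v) hP.e0.le
    nlinarith
  have h5 : ∑ j ∈ range n, (Op Γ P)^[j] (fun s => s.1 v) s ≤ S := by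
    calc ∑ j ∈ range n, (Op Γ P)^[j] (fun s => s.1 v) s ≤ ∑ j ∈ range n, (1 : ℝ) :=
          Finset.sum_le_sum fun j _ => (iter_x_le hP v j s h).trans hx.le
      _ = n := by simp
      _ ≤ S := by exact_mod_cast hn
  have h6 : ∑ j ∈ range n, (Op Γ P)^[j] (fun s => s.1 v * es Γ s.1 v) s ≤
      S * (d + 2 * P.q * Θ) := by
    calc ∑ j ∈ range n, (Op Γ P)^[j] (fun s => s.1 v * es Γ s.1 v) s ≤
          ∑ j ∈ range n, (d + 2 * P.q * Θ) :=
          Finset.sum_le_sum fun j hj => hxe j ((Finset.mem_range.1 hj).le.trans hn)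
      _ = n * (d + 2 * P.q * Θ) := by
          rw [Finset.sum_const, Finset.card_range, nsmul_eq_mul]
      _ ≤ S * (d + 2 * P.q * Θ) := by
          refine mul_le_mul_of_nonneg_right (by exact_mod_cast hn) ?_
          have h7 := h.es_nonneg v
          have := mul_nonneg hP.q0.le hΘ0
          linarith
  have h7 : Psi Γ P v s = 1 - es Γ s.1 v / P.eh := by
    unfold Psi
    rw [hx, hφ]; ring
  have h8 : es Γ s.1 v / P.eh ≤ d / P.eh := div_le_div_of_nonneg_right hd hP.e0.le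
  have hM0 : 0 < P.M := Real.exp_pos _
  have h9 := mul_le_mul_of_nonneg_left h5 (mul_nonneg hP.q0.le hM0.le)
  have h10 := mul_le_mul_of_nonneg_left h6 (div_nonneg hP.q0.le hP.p0.le)
  have h11 := mul_le_mul_of_nonneg_left (hTn n hn)
    (div_nonneg (by linarith [hP.q0]) hP.e0.le : 0 ≤ 2 * P.q / P.eh)
  have h12 : P.q / P.ph * (S * (d + 2 * P.q * Θ)) =
      P.q * S / P.ph * (d + 2 * P.q * Θ) := by ring
  rw [h12] at h10
  linarith

end Pool.Agent.K1H34.UNI
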