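import Mathlib
import Pool.Agent.K1H34.UNI.Oper

set_option autoImplicit false

/-!
# The picked vertices
-/

namespace Pool.Agent.K1H34.UNI

open Finset Classical

variable {X : Type} [Fintype X] {Γ : SimpleGraph X} {P : Par} {s : St X}

/-- the vertices picked in one step -/
noncomputable def pk (Γ : SimpleGraph X) (s : St X) (A : Finset X) : Finset X :=
  univ.filter (fun v => 0 < s.1 v ∧ v ∈ A ∧ Disjoint A (nb Γ v))

theorem mem_pk {A : Finset X} {v : X} :
    v ∈ pk Γ s A ↔ 0 < s.1 v ∧ v ∈ A ∧ Disjoint A (nb Γ v) := by simp [pk]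

/-- the picked vertices -/
noncomputable def picked (Γ : SimpleGraph X) (P : Par) : St X → List (Finset X) → Finset X
  | _, [] => ∅
  | s, A :: l => pk Γ s A ∪ picked Γ P (nx Γ P s A) l

/-- expectation over `n` steps -/
noncomputable def tree (Γ : SimpleGraph X) (P : Par) :
    ℕ → St X → (List (Finset X) → ℝ) → ℝ
  | 0, _, F => F []
  | n + 1, s, F => ∑ A : Finset X, Pr P.q s.1 A * tree Γ P n (nx Γ P s A) (fun l => F (A :: l))

theorem nx_zero {v : X} (h : s.1 v = 0) (A : Finset X) : (nx Γ P s A).1 v = 0 := by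
  rw [nx_fst]
  unfold pre
  rw [h]; simp

theorem notMem_picked {v : X} (l : List (Finset X)) :
    ∀ s : St X, s.1 v = 0 → v ∉ picked Γ P s l := by
  induction l with
  | nil => intro s _; exact Finset.notMem_empty _
  | cons A l ih =>
    intro s h
    unfold picked
    rw [Finset.mem_union, not_or]
    refine ⟨fun h1 => ?_, ih _ (nx_zero h A)⟩
    rw [mem_pk, h] at h1
    exact lt_irrefl _ h1.1

theorem nx_of_pk {A : Finset X} {u v : X} (hu : u ∈ pk Γ s A) (hv : v ∈ insert u (nb Γ u)) :
    (nx Γ P s A).1 v = 0 := by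
  rw [nx_fst]
  unfold pre
  rw [if_neg, zero_mul]
  rw [Finset.not_disjoint_iff]
  refine ⟨u, (mem_pk.1 hu).2.1, ?_⟩
  rcases Finset.mem_insert.1 hv with rfl | hv
  · exact Finset.mem_insert_self _ _
  · exact Finset.mem_insert_of_mem (mem_nb_comm.1 hv)

theorem later_notMem {A : Finset X} {u v : X} (hu : u ∈ pk Γ s A) (hv : v ∈ insert u (nb Γ u))
    (l : List (Finset X)) : v ∉ picked Γ P (nx Γ P s A) l :=
  notMem_picked l _ (nx_of_pk hu hv)

/-- the picked vertices are independent -/
theorem picked_indep (l : List (Finset X)) : ∀ s : St X, ∀ u ∈ picked Γ P s l,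
    ∀ v ∈ picked Γ P s l, ¬ Γ.Adj u v := by
  induction l with
  | nil => intro s u hu; exact absurd hu (Finset.notMem_empty _)
  | cons A l ih =>
    intro s u hu v hv huv
    unfold picked at hu hv
    rw [Finset.mem_union] at hu hv
    rcases hu with hu | hu <;> rcases hv with hv | hv
    · exact Finset.disjoint_left.1 (mem_pk.1 hv).2.2 (mem_pk.1 hu).2.1 (mem_nb.2 huv.symm)
    · exact later_notMem hu (Finset.mem_insert_of_mem (mem_nb.2 huv)) l hv
    · exact later_notMem hv (Finset.mem_insert_of_mem (mem_nb.2 huv.symm)) l hu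
    · exact ih _ u hu v hv huv

/-! ## linearity and monotonicity of `tree` -/

theorem tree_congr (n : ℕ) : ∀ (s : St X) (F G : List (Finset X) → ℝ), (∀ l, F l = G l) →
    tree Γ P n s F = tree Γ P n s G := by
  intro s F G h
  rw [funext h]

theorem tree_add (n : ℕ) : ∀ (s : St X) (F G : List (Finset X) → ℝ),
    tree Γ P n s (fun l => F l + G l) = tree Γ P n s F + tree Γ P n s G := by
  induction n with
  | zero => intro s F G; rfl
  | succ n ih =>
    intro s F G
    unfold tree
    rw [← Finset.sum_add_distrib]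
    refine Finset.sum_congr rfl fun A _ => ?_
    rw [ih, mul_add]

theorem tree_smul (n : ℕ) (c : ℝ) : ∀ (s : St X) (F : List (Finset X) → ℝ),
    tree Γ P n s (fun l => c * F l) = c * tree Γ P n s F := by
  induction n with
  | zero => intro s F; rfl
  | succ n ih =>
    intro s F
    unfold tree
    rw [Finset.mul_sum]
    refine Finset.sum_congr rfl fun A _ => ?_
    rw [ih]; ring

theorem tree_const (n : ℕ) (c : ℝ) : ∀ (s : St X), tree Γ P n s (fun _ => c) = c := by
  induction n with
  | zero => intro s; rfl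
  | succ n ih =>
    intro s
    unfold tree
    rw [Finset.sum_congr rfl fun A _ => by rw [ih], ← Finset.sum_mul, sum_Pr, one_mul]

theorem tree_sum {ι : Type} (T : Finset ι) (n : ℕ) (s : St X) (F : ι → List (Finset X) → ℝ) :
    tree Γ P n s (fun l => ∑ i ∈ T, F i l) = ∑ i ∈ T, tree Γ P n s (F i) := by
  induction T using Finset.induction_on with
  | empty =>
    simp only [Finset.sum_empty]
    exact tree_const n 0 s
  | insert a T ha ih =>
    simp only [Finset.sum_insert ha]
    rw [tree_add, ih]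

theorem tree_mono (hP : P.Ok) (n : ℕ) : ∀ (s : St X), Inv Γ P s →
    ∀ (F G : List (Finset X) → ℝ), (∀ l, F l ≤ G l) → tree Γ P n s F ≤ tree Γ P n s G := by
  induction n with
  | zero => intro s _ F G h; exact h []
  | succ n ih =>
    intro s hs F G h
    unfold tree
    exact Finset.sum_le_sum fun A _ => mul_le_mul_of_nonneg_left
      (ih _ (hs.nx hP A) _ _ fun l => h _) (hs.Pr_nonneg hP A)

/-! ## the probability of being picked -/

/-- probability of being picked in one step -/
noncomputable def pp (Γ : SimpleGraph X) (P : Par) (v : X) (s : St X) : ℝ :=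
  if 0 < s.1 v then P.q * s.1 v * ∏ u ∈ nb Γ v, (1 - P.q * s.1 u) else 0

theorem sum_pk (v : X) (s : St X) :
    ∑ A : Finset X, Pr P.q s.1 A * (if v ∈ pk Γ s A then 1 else 0) = pp Γ P v s := by
  unfold pp
  by_cases h : 0 < s.1 v
  · rw [if_pos h, ← sum_Pr_mem P.q s.1 (nb Γ v) (notMem_nb_self v)]
    refine Finset.sum_congr rfl fun A _ => ?_
    congr 1
    simp only [mem_pk, h, true_and]
  · rw [if_neg h]
    refine Finset.sum_eq_zero fun A _ => ?_
    rw [if_neg, mul_zero]
    rw [mem_pk]
    exact fun h1 => h h1.1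

theorem tree_picked (v : X) (n : ℕ) : ∀ s : St X,
    tree Γ P n s (fun l => if v ∈ picked Γ P s l then 1 else 0) =
      ∑ i ∈ range n, (Op Γ P)^[i] (pp Γ P v) s := by
  induction n with
  | zero =>
    intro s
    show (if v ∈ picked Γ P s [] then (1 : ℝ) else 0) = _
    rw [if_neg (by unfold picked; exact Finset.notMem_empty _)]
    simp
  | succ n ih =>
    intro s
    unfold tree
    have h1 : ∀ A : Finset X,
        tree Γ P n (nx Γ P s A) (fun l => if v ∈ picked Γ P s (A :: l) then (1 : ℝ) else 0) =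
        (if v ∈ pk Γ s A then 1 else 0) +
          ∑ i ∈ range n, (Op Γ P)^[i] (pp Γ P v) (nx Γ P s A) := by
      intro A
      rw [← ih, ← tree_const (Γ := Γ) (P := P) n (if v ∈ pk Γ s A then (1 : ℝ) else 0)
        (nx Γ P s A), ← tree_add]
      refine tree_congr n _ _ _ fun l => ?_
      show (if v ∈ pk Γ s A ∪ picked Γ P (nx Γ P s A) l then (1 : ℝ) else 0) = _
      by_cases h : v ∈ pk Γ s A
      · have h2 := later_notMem (P := P) h (Finset.mem_insert_self _ _) l
        rw [if_pos h, if_neg h2, if_pos (Finset.mem_union_left _ h), add_zero]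
      · rw [if_neg h, zero_add]
        refine if_congr ?_ rfl rfl
        rw [Finset.mem_union]
        tauto
    rw [Finset.sum_congr rfl fun A _ => by rw [h1 A, mul_add], Finset.sum_add_distrib,
      sum_pk, Finset.sum_range_succ']
    have h2 : ∑ A : Finset X, Pr P.q s.1 A *
        ∑ i ∈ range n, (Op Γ P)^[i] (pp Γ P v) (nx Γ P s A) =
        ∑ i ∈ range n, (Op Γ P)^[i + 1] (pp Γ P v) s := by
      simp_rw [Finset.mul_sum]
      rw [Finset.sum_comm]
      refine Finset.sum_congr rfl fun i _ => ?_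
      rw [Function.iterate_succ_apply']
      rfl
    rw [h2, add_comm]
    rfl

theorem pp_le (hP : P.Ok) (h : Inv Γ P s) (v : X) : pp Γ P v s ≤ P.q * s.1 v := by
  unfold pp
  split_ifs with h1
  · refine mul_le_of_le_one_right (h.q_nonneg hP v) ?_
    exact Finset.prod_le_one (fun u _ => (h.one_sub_pos hP u).le)
      fun u _ => by linarith [h.q_nonneg hP u]
  · exact h.q_nonneg hP v

theorem le_pp (hP : P.Ok) (h : Inv Γ P s) (v : X) :
    P.q * (1 - P.q * (2 * P.eh)) * s.1 v ≤ pp Γ P v s := by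
  unfold pp
  split_ifs with h1
  · have h2 : 1 - P.q * (2 * P.eh) ≤ ∏ u ∈ nb Γ v, (1 - P.q * s.1 u) := by
      have h3 := one_sub_sum_le (nb Γ v) (fun u => P.q * s.1 u) (fun u _ => h.q_nonneg hP u)
        (fun u _ => by linarith [h.q_half hP u])
      refine le_trans ?_ h3
      rw [← Finset.mul_sum]
      have := mul_le_mul_of_nonneg_left ((h v).2.2.2 h1).2 hP.q0.le
      unfold es at this
      linarith
    have h3 := mul_le_mul_of_nonneg_left h2 (h.q_nonneg hP v)
    linarith
  · have h2 : s.1 v = 0 := le_antisymm (not_lt.1 h1) (h v).1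
    rw [h2, mul_zero]

theorem picked_le (hP : P.Ok) (h : Inv Γ P s) (v : X) (n : ℕ) :
    tree Γ P n s (fun l => if v ∈ picked Γ P s l then 1 else 0) ≤ n * (P.q * s.1 v) := by
  rw [tree_picked]
  calc ∑ i ∈ range n, (Op Γ P)^[i] (pp Γ P v) s ≤ ∑ i ∈ range n, P.q * s.1 v := by
        refine Finset.sum_le_sum fun i _ => ?_
        have h1 := iter_mono hP (f := pp Γ P v) (g := fun s => P.q * s.1 v)
          (fun s' h' => pp_le hP h' v) i s h
        rw [iter_smul] at h1
        exact h1.trans (mul_le_mul_of_nonneg_left (iter_x_le hP v i s h) hP.q0.le)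
    _ = _ := by rw [Finset.sum_const, Finset.card_range, nsmul_eq_mul]

theorem le_picked (hP : P.Ok) (h : Inv Γ P s) (v : X) (n : ℕ) {lam : ℝ}
    (hl : ∀ i < n, lam ≤ (Op Γ P)^[i] (fun s => s.1 v) s) :
    P.q * n * (1 - P.q * (2 * P.eh)) * lam ≤
      tree Γ P n s (fun l => if v ∈ picked Γ P s l then 1 else 0) := by
  rw [tree_picked]
  have hc : 0 ≤ P.q * (1 - P.q * (2 * P.eh)) := mul_nonneg hP.q0.le (by linarith [hP.qe])
  calc P.q * n * (1 - P.q * (2 * P.eh)) * lam =
        ∑ i ∈ range n, P.q * (1 - P.q * (2 * P.eh)) * lam := by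
        rw [Finset.sum_const, Finset.card_range, nsmul_eq_mul]; ring
    _ ≤ _ := by
        refine Finset.sum_le_sum fun i hi => ?_
        have h1 := iter_mono hP (g := pp Γ P v)
          (f := fun s => P.q * (1 - P.q * (2 * P.eh)) * s.1 v)
          (fun s' h' => le_pp hP h' v) i s h
        rw [iter_smul] at h1
        exact (mul_le_mul_of_nonneg_left (hl i (Finset.mem_range.1 hi)) hc).trans h1

/-- two vertices are rarely picked both -/
theorem pair_le (hP : P.Ok) {u v : X} (huv : u ≠ v) (n : ℕ) : ∀ s : St X, Inv Γ P s →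
    tree Γ P n s (fun l => if u ∈ picked Γ P s l ∧ v ∈ picked Γ P s l then 1 else 0) ≤
      P.q ^ 2 * P.M * (s.1 u + s.1 v) * n ^ 2 := by
  induction n with
  | zero =>
    intro s _
    show (if u ∈ picked Γ P s [] ∧ v ∈ picked Γ P s [] then (1 : ℝ) else 0) ≤ _
    rw [if_neg (fun h => by
      have := h.1
      unfold picked at this
      exact Finset.notMem_empty _ this)]
    simp
  | succ n ih =>
    intro s h
    unfold tree
    have hM0 : 0 < P.M := Real.exp_pos _
    have hx0 := fun w => (h w).1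
    have hq0 := hP.q0
    have h1 : ∀ A : Finset X, tree Γ P n (nx Γ P s A)
        (fun l => if u ∈ picked Γ P s (A :: l) ∧ v ∈ picked Γ P s (A :: l) then (1 : ℝ) else 0) ≤
        (if u ∈ A ∧ v ∈ A then 1 else 0) +
        (if u ∈ A ∧ Disjoint A ∅ then 1 else 0) * (n * (P.q * P.M)) +
        (if v ∈ A ∧ Disjoint A ∅ then 1 else 0) * (n * (P.q * P.M)) +
        P.q ^ 2 * P.M * ((nx Γ P s A).1 u + (nx Γ P s A).1 v) * n ^ 2 := by
      intro A
      have hs' := h.nx hP A
      have h2 : tree Γ P n (nx Γ P s A) (fun l =>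
          if u ∈ picked Γ P s (A :: l) ∧ v ∈ picked Γ P s (A :: l) then (1 : ℝ) else 0) ≤
          tree Γ P n (nx Γ P s A) (fun l =>
            ((if u ∈ A ∧ v ∈ A then 1 else 0) +
            (if u ∈ A ∧ Disjoint A ∅ then 1 else 0) *
              (if v ∈ picked Γ P (nx Γ P s A) l then 1 else 0)) +
            ((if v ∈ A ∧ Disjoint A ∅ then 1 else 0) *
              (if u ∈ picked Γ P (nx Γ P s A) l then 1 else 0) +
            (if u ∈ picked Γ P (nx Γ P s A) l ∧ v ∈ picked Γ P (nx Γ P s A) l
              then 1 else 0))) := by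
        refine tree_mono hP n _ hs' _ _ fun l => ?_
        have e1 : ∀ w, w ∈ picked Γ P s (A :: l) ↔ w ∈ pk Γ s A ∨
            w ∈ picked Γ P (nx Γ P s A) l := fun w => Finset.mem_union
        have e2 : ∀ w, w ∈ pk Γ s A → w ∈ A := fun w hw => (mem_pk.1 hw).2.1
        have e3 : Disjoint A (∅ : Finset X) := Finset.disjoint_empty_right _
        have eu := e2 u
        have ev := e2 v
        have key : ∀ (a b c d e f : Prop), (e → a) → (f → b) →
            ((if ((e ∨ c) ∧ (f ∨ d)) then (1 : ℝ) else 0) ≤ ((if a ∧ b then 1 else 0) +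
              (if a then 1 else 0) * (if d then 1 else 0)) +
              ((if b then 1 else 0) * (if c then 1 else 0) + (if c ∧ d then 1 else 0))) := by
          intro a b c d e f h1 h2
          by_cases c1 : a <;> by_cases c2 : b <;> by_cases c3 : c <;> by_cases c4 : d <;>
            by_cases c5 : e <;> by_cases c6 : f <;> simp_all <;> norm_num
        have := key (u ∈ A) (v ∈ A) (u ∈ picked Γ P (nx Γ P s A) l)
          (v ∈ picked Γ P (nx Γ P s A) l) (u ∈ pk Γ s A) (v ∈ pk Γ s A) eu ev
        simp only [e1 u, e1 v, e3, and_true]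
        convert this using 3 <;> congr
      refine h2.trans ?_
      rw [tree_add, tree_add, tree_add, tree_const, tree_smul, tree_smul]
      have h3 := picked_le hP hs' u n
      have h4 := picked_le hP hs' v n
      have h5 := ih _ hs'
      have h6 : (n : ℝ) * (P.q * (nx Γ P s A).1 u) ≤ n * (P.q * P.M) :=
        mul_le_mul_of_nonneg_left (mul_le_mul_of_nonneg_left (hs'.le_M u) hq0.le)
          (Nat.cast_nonneg _)
      have h7 : (n : ℝ) * (P.q * (nx Γ P s A).1 v) ≤ n * (P.q * P.M) :=
        mul_le_mul_of_nonneg_left (mul_le_mul_of_nonneg_left (hs'.le_M v) hq0.le)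
          (Nat.cast_nonneg _)
      have h8 : (0 : ℝ) ≤ (if u ∈ A ∧ Disjoint A ∅ then 1 else 0) := by split_ifs <;> norm_num
      have h9 : (0 : ℝ) ≤ (if v ∈ A ∧ Disjoint A ∅ then 1 else 0) := by split_ifs <;> norm_num
      have h10 := mul_le_mul_of_nonneg_left (h4.trans h7) h8
      have h11 := mul_le_mul_of_nonneg_left (h3.trans h6) h9
      linarith
    refine (Finset.sum_le_sum fun A _ => mul_le_mul_of_nonneg_left (h1 A)
      (h.Pr_nonneg hP A)).trans ?_
    have h2 : ∑ A : Finset X, Pr P.q s.1 A * ((if u ∈ A ∧ v ∈ A then 1 else 0) +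
        (if u ∈ A ∧ Disjoint A ∅ then 1 else 0) * (n * (P.q * P.M)) +
        (if v ∈ A ∧ Disjoint A ∅ then 1 else 0) * (n * (P.q * P.M)) +
        P.q ^ 2 * P.M * ((nx Γ P s A).1 u + (nx Γ P s A).1 v) * n ^ 2) =
        P.q * s.1 u * (P.q * s.1 v) + P.q * s.1 u * (n * (P.q * P.M)) +
        P.q * s.1 v * (n * (P.q * P.M)) +
        P.q ^ 2 * P.M * n ^ 2 * (Op Γ P (fun s => s.1 u) s + Op Γ P (fun s => s.1 v) s) := by
      have e1 := sum_Pr_mem2 P.q s.1 huv
      have e2 := sum_Pr_mem P.q s.1 ∅ (v := u) (Finset.notMem_empty _)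
      have e3 := sum_Pr_mem P.q s.1 ∅ (v := v) (Finset.notMem_empty _)
      rw [Finset.prod_empty, mul_one] at e2 e3
      rw [← e1]
      unfold Op
      rw [← e2, ← e3, Finset.sum_mul, Finset.sum_mul, ← Finset.sum_add_distrib,
        ← Finset.sum_add_distrib, ← Finset.sum_add_distrib, Finset.mul_sum,
        ← Finset.sum_add_distrib]
      refine Finset.sum_congr rfl fun A _ => ?_
      ring
    rw [h2]
    have h3 := Op_x_le hP h u
    have h4 := Op_x_le hP h v
    have h5 : P.q * s.1 u * (P.q * s.1 v) ≤ P.q ^ 2 * P.M * (s.1 u + s.1 v) := by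
      have e1 := mul_le_mul_of_nonneg_left (h.le_M v) (hx0 u)
      have e2 : 0 ≤ P.q ^ 2 * P.M * s.1 v := by have := hx0 v; positivity
      have e3 := mul_le_mul_of_nonneg_left e1 (sq_nonneg P.q)
      nlinarith
    have h6 : 0 ≤ P.q ^ 2 * P.M * (n : ℝ) ^ 2 := by positivity
    have h7 := mul_le_mul_of_nonneg_left (add_le_add h3 h4) h6
    have h8 : 0 ≤ P.q ^ 2 * P.M * (s.1 u + s.1 v) * n := by
      have := hx0 u; have := hx0 v; positivity
    push_cast
    nlinarith

/-! ## versions with an indicator function -/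

/-- indicator of a proposition -/
noncomputable def ind (p : Prop) : ℝ := if p then 1 else 0

theorem ind_eq (p : Prop) [Decidable p] : ind p = if p then 1 else 0 := by
  unfold ind
  congr

theorem ind_true {p : Prop} (h : p) : ind p = 1 := if_pos h

theorem ind_false {p : Prop} (h : ¬ p) : ind p = 0 := if_neg h

theorem ind_nonneg (p : Prop) : 0 ≤ ind p := by
  unfold ind
  split_ifs <;> norm_num

theorem le_picked' (hP : P.Ok) (h : Inv Γ P s) (v : X) (n : ℕ) {lam : ℝ}
    (hl : ∀ i < n, lam ≤ (Op Γ P)^[i] (fun s => s.1 v) s) :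
    P.q * n * (1 - P.q * (2 * P.eh)) * lam ≤
      tree Γ P n s (fun l => ind (v ∈ picked Γ P s l)) := by
  simp_rw [ind_eq]
  exact le_picked hP h v n hl

theorem pair_le' (hP : P.Ok) {u v : X} (huv : u ≠ v) (n : ℕ) (s : St X) (h : Inv Γ P s) :
    tree Γ P n s (fun l => ind (u ∈ picked Γ P s l ∧ v ∈ picked Γ P s l)) ≤
      P.q ^ 2 * P.M * (s.1 u + s.1 v) * n ^ 2 := by
  simp_rw [ind_eq]
  exact pair_le hP huv n s h

end Pool.Agent.K1H34.UNI
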