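import Mathlib
import Pool.Agent.K1H34.UNI.Tree

set_option autoImplicit false

/-!
# The process as a function on a product space, and its locality
-/

namespace Pool.Agent.K1H34.UNI

open Finset Classical

/-! ## balls -/

section ball

variable {X : Type} [Fintype X] {Γ : SimpleGraph X}

/-- closed neighbourhood of a set -/
noncomputable def nbh (Γ : SimpleGraph X) (D : Finset X) : Finset X := D ∪ D.biUnion (nb Γ)

/-- ball of radius `r` around a set -/
noncomputable def ball (Γ : SimpleGraph X) (r : ℕ) (D : Finset X) : Finset X := (nbh Γ)^[r] D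

theorem mem_nbh {D : Finset X} {b : X} : b ∈ nbh Γ D ↔ ∃ c ∈ D, b = c ∨ Γ.Adj c b := by
  unfold nbh
  rw [Finset.mem_union, Finset.mem_biUnion]
  constructor
  · rintro (h | ⟨c, hc, h⟩)
    · exact ⟨b, h, Or.inl rfl⟩
    · exact ⟨c, hc, Or.inr (mem_nb.1 h)⟩
  · rintro ⟨c, hc, rfl | h⟩
    · exact Or.inl hc
    · exact Or.inr ⟨c, hc, mem_nb.2 h⟩

theorem subset_nbh (D : Finset X) : D ⊆ nbh Γ D := Finset.subset_union_left

theorem nb_subset_nbh {D : Finset X} {v : X} (hv : v ∈ D) : nb Γ v ⊆ nbh Γ D := fun u hu =>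
  mem_nbh.2 ⟨v, hv, Or.inr (mem_nb.1 hu)⟩

theorem nbh_mono {D D' : Finset X} (h : D ⊆ D') : nbh Γ D ⊆ nbh Γ D' := by
  intro b hb
  obtain ⟨c, hc, h1⟩ := mem_nbh.1 hb
  exact mem_nbh.2 ⟨c, h hc, h1⟩

theorem ball_zero (D : Finset X) : ball Γ 0 D = D := rfl

theorem ball_succ (r : ℕ) (D : Finset X) : ball Γ (r + 1) D = nbh Γ (ball Γ r D) :=
  Function.iterate_succ_apply' _ _ _

theorem ball_succ' (r : ℕ) (D : Finset X) : ball Γ (r + 1) D = ball Γ r (nbh Γ D) :=
  Function.iterate_succ_apply _ _ _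

theorem ball_add (r r' : ℕ) (D : Finset X) : ball Γ (r + r') D = ball Γ r (ball Γ r' D) :=
  Function.iterate_add_apply _ _ _ _

theorem ball_mono (r : ℕ) {D D' : Finset X} (h : D ⊆ D') : ball Γ r D ⊆ ball Γ r D' := by
  induction r with
  | zero => exact h
  | succ r ih => rw [ball_succ, ball_succ]; exact nbh_mono ih

theorem subset_ball (r : ℕ) (D : Finset X) : D ⊆ ball Γ r D := by
  induction r with
  | zero => exact Finset.Subset.refl _
  | succ r ih => rw [ball_succ]; exact ih.trans (subset_nbh _)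

theorem ball_symm (r : ℕ) : ∀ {a b : X}, b ∈ ball Γ r {a} → a ∈ ball Γ r {b} := by
  induction r with
  | zero =>
    intro a b h
    rw [ball_zero, Finset.mem_singleton] at h ⊢
    exact h.symm
  | succ r ih =>
    intro a b h
    rw [ball_succ] at h
    obtain ⟨c, hc, h1⟩ := mem_nbh.1 h
    rw [ball_succ']
    refine ball_mono r ?_ (ih hc)
    rw [Finset.singleton_subset_iff]
    refine mem_nbh.2 ⟨b, Finset.mem_singleton_self _, ?_⟩
    rcases h1 with h1 | h1
    · exact Or.inl h1.symm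
    · exact Or.inr h1.symm

theorem ball_card {d : ℕ} (hd : ∀ v, (nb Γ v).card ≤ d) (r : ℕ) (D : Finset X) :
    (ball Γ r D).card ≤ D.card * (d + 1) ^ r := by
  induction r with
  | zero => rw [ball_zero]; simp
  | succ r ih =>
    rw [ball_succ]
    have h1 : (nbh Γ (ball Γ r D)).card ≤ (ball Γ r D).card + (ball Γ r D).card * d := by
      refine (Finset.card_union_le _ _).trans (Nat.add_le_add_left ?_ _)
      exact Finset.card_biUnion_le_card_mul _ _ _ fun v _ => hd v
    calc (nbh Γ (ball Γ r D)).card ≤ (ball Γ r D).card * (d + 1) := by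
          rw [mul_add, mul_one, add_comm]; exact h1
      _ ≤ D.card * (d + 1) ^ r * (d + 1) := Nat.mul_le_mul_right _ ih
      _ = _ := by rw [pow_succ]; ring

end ball

variable {X : Type} [Fintype X] {Γ : SimpleGraph X} {P : Par} {s : St X}

variable {C : Type} [Fintype C]

/-- the activated set -/
noncomputable def act (E : ℝ → Finset C) (q : ℝ) (x : X → ℝ) (ω : X → C) : Finset X :=
  univ.filter (fun v => ω v ∈ E (q * x v))

/-- the activated sets of all steps -/
noncomputable def As (Γ : SimpleGraph X) (P : Par) (E : ℝ → Finset C) :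
    (n : ℕ) → St X → (Fin n → X → C) → List (Finset X)
  | 0, _, _ => []
  | n + 1, s, ω => act E P.q s.1 (ω 0) ::
      As Γ P E n (nx Γ P s (act E P.q s.1 (ω 0))) (fun i => ω i.succ)

/-- the state after some steps -/
noncomputable def run (Γ : SimpleGraph X) (P : Par) : St X → List (Finset X) → St X
  | s, [] => s
  | s, A :: l => run Γ P (nx Γ P s A) l

theorem run_inv (hP : P.Ok) (l : List (Finset X)) : ∀ s, Inv Γ P s → Inv Γ P (run Γ P s l) := by
  induction l with
  | nil => intro s h; exact h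
  | cons A l ih => intro s h; exact ih _ (h.nx hP A)

/-- the law of the process -/
theorem sum_As (hO : S_ONE) (w : C → ℝ) (hw : ∑ c, w c = 1) (E : ℝ → Finset C) (n : ℕ) :
    ∀ s : St X, (∀ l : List (Finset X), l.length < n → ∀ v,
      ∑ c ∈ E (P.q * (run Γ P s l).1 v), w c = P.q * (run Γ P s l).1 v) →
    ∀ F : List (Finset X) → ℝ,
    ∑ ω : Fin n → X → C, (∏ i, ∏ v, w (ω i v)) * F (As Γ P E n s ω) = tree Γ P n s F := by
  induction n with
  | zero =>
    intro s _ F
    rw [Fintype.sum_eq_single (fun i => i.elim0) (fun ω h => absurd (funext fun i => i.elim0) h)]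
    simp [As, tree]
  | succ n ih =>
    intro s hG F
    rw [← (Fin.consEquiv (fun _ : Fin (n + 1) => X → C)).sum_comp, Fintype.sum_prod_type]
    have h1 : ∀ a : X → C, ∑ ω' : Fin n → X → C,
        (∏ i, ∏ v, w ((Fin.consEquiv (fun _ : Fin (n + 1) => X → C)) (a, ω') i v)) *
          F (As Γ P E (n + 1) s ((Fin.consEquiv (fun _ : Fin (n + 1) => X → C)) (a, ω'))) =
        (∏ v, w (a v)) * tree Γ P n (nx Γ P s (act E P.q s.1 a))
          (fun l => F (act E P.q s.1 a :: l)) := by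
      intro a
      rw [← ih (nx Γ P s (act E P.q s.1 a)) (fun l hl v => hG (act E P.q s.1 a :: l) (by
        rw [List.length_cons]; omega) v), Finset.mul_sum]
      refine Finset.sum_congr rfl fun ω' _ => ?_
      rw [Fin.prod_univ_succ]
      simp only [Fin.consEquiv_apply, Fin.cons_zero, Fin.cons_succ, As]
      ring
    rw [Finset.sum_congr rfl fun a _ => h1 a]
    exact hO X C w (fun v => E (P.q * s.1 v)) P.q s.1 hw
      (fun v => hG [] (Nat.succ_pos _) v)
      (fun A => tree Γ P n (nx Γ P s A) (fun l => F (A :: l)))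

/-- a suitable finite weighted space -/
theorem exists_source (hS : S_SRC) (hP : P.Ok) (h : Inv Γ P s) (n : ℕ) :
    ∃ (C : Type) (_ : Fintype C) (w : C → ℝ) (E : ℝ → Finset C), (∀ c, 0 ≤ w c) ∧
      ∑ c, w c = 1 ∧ ∀ l : List (Finset X), l.length < n → ∀ v,
      ∑ c ∈ E (P.q * (run Γ P s l).1 v), w c = P.q * (run Γ P s l).1 v := by
  have hfin : {p : ℝ | ∃ l : List (Finset X), l.length < n ∧
      ∃ v, p = P.q * (run Γ P s l).1 v}.Finite := by
    have h1 : {p : ℝ | ∃ l : List (Finset X), l.length < n ∧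
        ∃ v, p = P.q * (run Γ P s l).1 v} ⊆
        Set.image2 (fun (l : List (Finset X)) (v : X) => P.q * (run Γ P s l).1 v)
          {l | l.length < n} Set.univ := by
      rintro p ⟨l, hl, v, rfl⟩
      exact ⟨l, hl, v, Set.mem_univ _, rfl⟩
    exact ((List.finite_length_lt (Finset X) n).image2 _ Set.finite_univ).subset h1
  obtain ⟨C, hC, w, E, a, b, c⟩ := hS hfin.toFinset (by
    intro p hp
    rw [Set.Finite.mem_toFinset] at hp
    obtain ⟨l, _, v, rfl⟩ := hp
    have h2 := run_inv hP l s h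
    exact ⟨h2.q_nonneg hP v, by linarith [h2.q_half hP v]⟩)
  exact ⟨C, hC, w, E, a, b, fun l hl v => c _ (by
    rw [Set.Finite.mem_toFinset]
    exact ⟨l, hl, v, rfl⟩)⟩

/-! ## locality -/

/-- the states agree on `D` -/
def Agr (s s' : St X) (D : Finset X) : Prop := ∀ v ∈ D, s.1 v = s'.1 v ∧ s.2 v = s'.2 v

theorem disjoint_iff_of_agree {A A' D : Finset X} (h : ∀ v ∈ D, (v ∈ A ↔ v ∈ A')) {K : Finset X}
    (hK : K ⊆ D) : Disjoint A K ↔ Disjoint A' K := by
  rw [Finset.disjoint_right, Finset.disjoint_right]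
  constructor
  · intro h1 v hv hv'
    exact h1 hv ((h v (hK hv)).2 hv')
  · intro h1 v hv hv'
    exact h1 hv ((h v (hK hv)).1 hv')

theorem pre_agree {s s' : St X} {A A' K : Finset X} (hs : Agr s s' (nbh Γ K))
    (hA : ∀ v ∈ nbh Γ K, (v ∈ A ↔ v ∈ A')) {v : X} (hv : v ∈ K) :
    pre Γ P.q s.1 A v = pre Γ P.q s'.1 A' v := by
  have h1 : insert v (nb Γ v) ⊆ nbh Γ K :=
    Finset.insert_subset (subset_nbh _ hv) (nb_subset_nbh hv)
  have h2 : gain Γ P.q s.1 v = gain Γ P.q s'.1 v := by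
    refine Finset.prod_congr rfl fun u hu => ?_
    rw [(hs u (nb_subset_nbh hv hu)).1]
  unfold pre
  rw [h2, (hs v (subset_nbh _ hv)).1]
  exact if_congr (disjoint_iff_of_agree hA h1) rfl rfl

theorem nx_agree {s s' : St X} {A A' K : Finset X} (hs : Agr s s' (nbh Γ (nbh Γ K)))
    (hA : ∀ v ∈ nbh Γ (nbh Γ K), (v ∈ A ↔ v ∈ A')) : Agr (nx Γ P s A) (nx Γ P s' A') K := by
  intro v hv
  have hs1 : Agr s s' (nbh Γ K) := fun u hu => hs u (subset_nbh _ hu)
  have h1 : es Γ s.1 v = es Γ s'.1 v :=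
    Finset.sum_congr rfl fun u hu => (hs1 u (nb_subset_nbh hv hu)).1
  have h2 : ∀ u ∈ nbh Γ K, pre Γ P.q s.1 A u = pre Γ P.q s'.1 A' u := fun u hu =>
    pre_agree hs hA hu
  have h3 : s.2 v = s'.2 v := (hs1 v (subset_nbh _ hv)).2
  constructor
  · rw [nx_fst, nx_fst]
    unfold cc
    rw [h2 v (subset_nbh _ hv), h1, h3]
    rw [Finset.sum_congr rfl fun u hu => h2 u (nb_subset_nbh hv hu)]
  · rw [nx_snd, nx_snd, h1, h3]

theorem picked_local (E : ℝ → Finset C) (n : ℕ) : ∀ (D : Finset X) (s s' : St X)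
    (ω ω' : Fin n → X → C), Agr s s' (ball Γ (2 * n) D) →
    (∀ i, ∀ b ∈ ball Γ (2 * n) D, ω i b = ω' i b) → ∀ a ∈ D,
    (a ∈ picked Γ P s (As Γ P E n s ω) ↔ a ∈ picked Γ P s' (As Γ P E n s' ω')) := by
  induction n with
  | zero =>
    intro D s s' ω ω' _ _ a _
    simp [As, picked]
  | succ n ih =>
    intro D s s' ω ω' hs hω a ha
    have hD : ball Γ (2 * (n + 1)) D = nbh Γ (nbh Γ (ball Γ (2 * n) D)) := by
      rw [show 2 * (n + 1) = (2 * n + 1) + 1 by ring, ball_succ, ball_succ]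
    rw [hD] at hs hω
    have hA : ∀ v ∈ nbh Γ (nbh Γ (ball Γ (2 * n) D)),
        (v ∈ act E P.q s.1 (ω 0) ↔ v ∈ act E P.q s'.1 (ω' 0)) := by
      intro v hv
      simp only [act, Finset.mem_filter, Finset.mem_univ, true_and]
      rw [hω 0 v hv, (hs v hv).1]
    have hn := nx_agree (P := P) hs hA
    have hD2 : D ⊆ ball Γ (2 * n) D := subset_ball _ _
    have hD1 : D ⊆ nbh Γ (nbh Γ (ball Γ (2 * n) D)) :=
      (hD2.trans (subset_nbh _)).trans (subset_nbh _)
    have h1 := ih D _ _ (fun i => ω i.succ) (fun i => ω' i.succ) hn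
      (fun i b hb => hω i.succ b (subset_nbh _ (subset_nbh _ hb))) a ha
    have h2 : a ∈ pk Γ s (act E P.q s.1 (ω 0)) ↔ a ∈ pk Γ s' (act E P.q s'.1 (ω' 0)) := by
      rw [mem_pk, mem_pk, (hs a (hD1 ha)).1, hA a (hD1 ha),
        disjoint_iff_of_agree hA ((nb_subset_nbh (hD2 ha)).trans (subset_nbh _))]
    unfold As picked
    rw [Finset.mem_union, Finset.mem_union, h1, h2]

end Pool.Agent.K1H34.UNI
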