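import Mathlib
import Pool.Agent.K1H34.UNI.Prod

set_option autoImplicit false

/-!
# The layered graph, continuity, and the classes
-/

namespace Pool.Agent.K1H34.UNI

open Finset Classical

/-! ## continuity -/

section cont

variable {X : Type} [Fintype X] {Γ : SimpleGraph X} {P : Par}

theorem cut_cont : Continuous cut := by
  unfold cut
  fun_prop

theorem Pr_cont (q : ℝ) (A : Finset X) : Continuous fun s : St X => Pr q s.1 A := by
  unfold Pr
  fun_prop

theorem es_cont (v : X) : Continuous fun s : St X => es Γ s.1 v := by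
  unfold es
  fun_prop

theorem gain_cont (q : ℝ) (v : X) : Continuous fun s : St X => gain Γ q s.1 v := by
  unfold gain
  refine continuous_finsetProd _ fun u _ => Continuous.inv₀ (by fun_prop) fun s => ?_
  exact (lt_of_lt_of_le (by norm_num) (le_max_left _ _)).ne'

theorem pre_cont (q : ℝ) (A : Finset X) (v : X) :
    Continuous fun s : St X => pre Γ q s.1 A v := by
  unfold pre
  by_cases h : Disjoint A (insert v (nb Γ v))
  · simp only [h, if_true]
    exact Continuous.mul (by fun_prop) (gain_cont q v)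
  · simp only [h, if_false]
    exact continuous_const

theorem nx_cont (A : Finset X) : Continuous fun s : St X => nx Γ P s A := by
  have h1 : ∀ v, Continuous fun s : St X => s.2 v + P.q * es Γ s.1 v := fun v =>
    Continuous.add (by fun_prop) (continuous_const.mul (es_cont v))
  refine Continuous.prodMk ?_ (continuous_pi h1)
  refine continuous_pi fun v => (pre_cont P.q A v).mul ((cut_cont.comp ((h1 v).div_const _)).mul
    (cut_cont.comp ((continuous_finsetSum _ fun u _ => pre_cont P.q A u).div_const _)))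

theorem Op_cont {f : St X → ℝ} (hf : Continuous f) : Continuous (Op Γ P f) := by
  unfold Op
  exact continuous_finsetSum _ fun A _ => (Pr_cont P.q A).mul (hf.comp (nx_cont A))

theorem iter_cont {f : St X → ℝ} (hf : Continuous f) (n : ℕ) : Continuous ((Op Γ P)^[n] f) := by
  induction n with
  | zero => exact hf
  | succ n ih =>
    rw [Function.iterate_succ_apply']
    exact Op_cont ih

theorem KK_cont (t : ℕ) (v : X) : Continuous fun s : St X => KK Γ t s.1 v := by
  unfold KK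
  refine continuous_finsetSum _ fun a _ => continuous_finsetSum _ fun b _ => ?_
  split_ifs
  · fun_prop
  · exact continuous_const

end cont

/-! ## the layered graph -/

variable {V : Type} [Fintype V]

/-- `L` disjoint copies of `G` -/
def lay (G : SimpleGraph V) (L : ℕ) : SimpleGraph (V × Fin L) where
  Adj a b := G.Adj a.1 b.1 ∧ a.2 = b.2
  symm := ⟨fun _ _ h => ⟨h.1.symm, h.2.symm⟩⟩
  loopless := ⟨fun _ h => G.irrefl h.1⟩

variable {G : SimpleGraph V} {L : ℕ}

theorem lay_adj {a b : V × Fin L} : (lay G L).Adj a b ↔ G.Adj a.1 b.1 ∧ a.2 = b.2 := Iff.rfl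

theorem nb_lay (v : V) (l : Fin L) :
    nb (lay G L) (v, l) = (nb G v).map ⟨fun u => (u, l), fun a b h => (Prod.mk.inj h).1⟩ := by
  ext ⟨u, m⟩
  rw [mem_nb, lay_adj, Finset.mem_map]
  constructor
  · rintro ⟨h1, h2⟩
    exact ⟨u, mem_nb.2 h1, by simpa using h2⟩
  · rintro ⟨w, h1, h2⟩
    obtain ⟨rfl, rfl⟩ := Prod.mk.inj h2
    exact ⟨mem_nb.1 h1, rfl⟩

theorem card_nb_lay (v : V) (l : Fin L) : (nb (lay G L) (v, l)).card = (nb G v).card := by
  rw [nb_lay, Finset.card_map]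

theorem lay_rare {t s : ℕ} (ht : 1 ≤ t) (h : UHC.Rare G t s) : UHC.Rare (lay G L) t s := by
  intro x y hx hy hxy
  let i0 : Fin t := ⟨0, ht⟩
  have h1 : ∀ i, (x i).2 = (y i0).2 := fun i => (hxy i i0).2
  have h2 : ∀ i, (y i).2 = (y i0).2 := fun i => ((hxy i0 i).2.symm.trans (h1 i0))
  have h3 := h (fun i => (x i).1) (fun i => (y i).1)
    (fun a b hab => hx (Prod.ext hab ((h1 a).trans (h1 b).symm)))
    (fun a b hab => hy (Prod.ext hab ((h2 a).trans (h2 b).symm))) (fun i j => (hxy i j).1)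
  refine le_trans ?_ h3
  refine Finset.card_le_card_of_injOn (fun v => v.1) ?_ ?_
  · intro v hv
    rw [Finset.mem_coe, Finset.mem_filter] at hv
    rw [Finset.mem_coe, Finset.mem_filter]
    exact ⟨Finset.mem_univ _, fun i => (hv.2.1 i).1, fun i => (hv.2.2 i).1⟩
  · intro v hv v' hv' hvv
    rw [Finset.mem_coe, Finset.mem_filter] at hv hv'
    exact Prod.ext hvv ((hv.2.1 i0).2.trans (hv'.2.1 i0).2.symm)

/-- the initial state -/
def ini {X : Type} (y : X → ℝ) : St X := (y, fun _ => 0)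

theorem ini_inv {P : Par} (hP : P.Ok) {y : V × Fin L → ℝ} (hy : ∀ p, 0 ≤ y p ∧ y p ≤ 1) {d : ℝ}
    (hd : ∀ v, ((nb G v).card : ℝ) ≤ d) (hde : d ≤ 2 * P.eh) : Inv (lay G L) P (ini y) := by
  intro p
  refine ⟨(hy p).1, le_rfl, ?_, fun _ => ⟨?_, ?_⟩⟩
  · show y p ≤ Real.exp (2 * 0)
    rw [mul_zero, Real.exp_zero]
    exact (hy p).2
  · show (0 : ℝ) ≤ 2 * P.ph
    linarith [hP.p0]
  · refine le_trans ?_ ((hd p.1).trans hde)
    rw [← card_nb_lay p.1 p.2]
    calc es (lay G L) y p ≤ ∑ u ∈ nb (lay G L) p, (1 : ℝ) :=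
          Finset.sum_le_sum fun u _ => (hy u).2
      _ = _ := by simp

theorem ini_es {y : V × Fin L → ℝ} (hy : ∀ p, 0 ≤ y p ∧ y p ≤ 1) {d : ℝ}
    (hd : ∀ v, ((nb G v).card : ℝ) ≤ d) (p : V × Fin L) : es (lay G L) (ini y).1 p ≤ d := by
  refine le_trans ?_ (hd p.1)
  rw [← card_nb_lay p.1 p.2]
  calc es (lay G L) y p ≤ ∑ u ∈ nb (lay G L) p, (1 : ℝ) :=
        Finset.sum_le_sum fun u _ => (hy u).2
    _ = _ := by simp

/-- the badness of a vertex of the layered graph -/
noncomputable def Hb (G : SimpleGraph V) (L : ℕ) (P : Par) (t S : ℕ) (y : V × Fin L → ℝ)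
    (p : V × Fin L) : ℝ :=
  ∑ i ∈ range S, (Op (lay G L) P)^[i] (fun s => s.1 p * KK (lay G L) t s.1 p) (ini y)

theorem Hb_cont (P : Par) (t S : ℕ) : Continuous (Hb G L P t S) := by
  refine continuous_pi fun p => ?_
  unfold Hb
  refine continuous_finsetSum _ fun i _ => ?_
  refine (iter_cont (Continuous.mul (by fun_prop) (KK_cont t p)) i).comp ?_
  unfold ini
  exact Continuous.prodMk continuous_id continuous_const

theorem KK_nonneg {X : Type} [Fintype X] {Γ : SimpleGraph X} {t : ℕ} {x : X → ℝ}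
    (h : ∀ v, 0 ≤ x v) (v : X) : 0 ≤ KK Γ t x v := by
  unfold KK
  refine Finset.sum_nonneg fun a _ => Finset.sum_nonneg fun b _ => ?_
  split_ifs
  · exact mul_nonneg (Finset.prod_nonneg fun i _ => h _) (Finset.prod_nonneg fun i _ => h _)
  · exact le_rfl

theorem Hb_nonneg {P : Par} (hP : P.Ok) {y : V × Fin L → ℝ} (hy : ∀ p, 0 ≤ y p ∧ y p ≤ 1) {d : ℝ}
    (hd : ∀ v, ((nb G v).card : ℝ) ≤ d) (hde : d ≤ 2 * P.eh) (t S : ℕ) (p : V × Fin L) :
    0 ≤ Hb G L P t S y p :=
  Finset.sum_nonneg fun i _ => iter_nonneg hP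
    (fun s' h' => mul_nonneg (h' p).1 (KK_nonneg (fun u => (h' u).1) p)) i (ini_inv hP hy hd hde)

theorem layer_mass (hM : S_MASS) {t s : ℕ} (ht : 1 ≤ t) (hR : UHC.Rare G t s) {P : Par}
    (hP : P.Ok) {σ : St (V × Fin L)} (h : Inv (lay G L) P σ) (l : Fin L) :
    ∑ v, σ.1 (v, l) * KK (lay G L) t σ.1 (v, l) ≤
      (s + t ^ 2) * P.M * (2 * P.eh) ^ (2 * t - 1) * ∑ v, σ.1 (v, l) := by
  set x : V × Fin L → ℝ := fun p => if p.2 = l then σ.1 p else 0 with hx
  have hM0 : 0 < P.M := Real.exp_pos _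
  have hx0 : ∀ p, 0 ≤ x p := by
    intro p
    simp only [hx]
    split_ifs
    · exact (h p).1
    · exact le_rfl
  have hxl : ∀ v, x (v, l) = σ.1 (v, l) := fun v => by simp [hx]
  have hxn : ∀ p, p.2 ≠ l → x p = 0 := fun p hp => by simp [hx, hp]
  have hnb : ∀ v, ∀ u ∈ nb (lay G L) (v, l), x u = σ.1 u := by
    intro v u hu
    have := (lay_adj.1 (mem_nb.1 hu)).2
    simp only [hx]
    rw [if_pos this.symm]
  have h1 := hM (V × Fin L) (lay G L) t s ht (lay_rare ht hR) x P.M (2 * P.eh) hM0.le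
    (by linarith [hP.e0]) hx0 (fun p => by
      by_cases hp : p.2 = l
      · simp only [hx, hp, if_true]; exact h.le_M p
      · rw [hxn p hp]; exact hM0.le) (fun p hp => by
      have hp2 : p.2 = l := by
        by_contra hne
        rw [hxn p hne] at hp
        exact lt_irrefl _ hp
      obtain ⟨v, m⟩ := p
      simp only at hp2
      subst hp2
      rw [hxl] at hp
      refine le_trans (le_of_eq ?_) ((h (v, m)).2.2.2 hp).2
      exact Finset.sum_congr rfl fun u hu => hnb v u hu)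
  have h2 : ∀ f : V × Fin L → ℝ, (∀ p, p.2 ≠ l → f p = 0) → ∑ p, f p = ∑ v, f (v, l) := by
    intro f hf
    rw [Fintype.sum_prod_type]
    refine Finset.sum_congr rfl fun v _ => ?_
    exact Fintype.sum_eq_single l fun m hm => hf (v, m) hm
  rw [h2 _ (fun p hp => by rw [hxn p hp, zero_mul]), h2 x hxn] at h1
  have h3 : ∀ v, x (v, l) * KK (lay G L) t x (v, l) =
      σ.1 (v, l) * KK (lay G L) t σ.1 (v, l) := by
    intro v
    rw [hxl]
    congr 1
    unfold KK
    refine Finset.sum_congr rfl fun a _ => Finset.sum_congr rfl fun b _ => ?_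
    by_cases hab : (∀ i, a i ∈ nb (lay G L) (v, l)) ∧ (∀ j, b j ∈ nb (lay G L) (v, l)) ∧
        ∀ i j, (lay G L).Adj (a i) (b j)
    · rw [if_pos hab, if_pos hab]
      congr 1
      · exact Finset.prod_congr rfl fun i _ => hnb v _ (hab.1 i)
      · exact Finset.prod_congr rfl fun i _ => hnb v _ (hab.2.1 i)
    · rw [if_neg hab, if_neg hab]
  rw [Finset.sum_congr rfl fun v _ => h3 v, Finset.sum_congr rfl fun v _ => hxl v] at h1
  exact h1

theorem Hb_mass (hM : S_MASS) {t s : ℕ} (ht : 1 ≤ t) (hR : UHC.Rare G t s) {P : Par}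
    (hP : P.Ok) {y : V × Fin L → ℝ} (hy : ∀ p, 0 ≤ y p ∧ y p ≤ 1) {d : ℝ}
    (hd : ∀ v, ((nb G v).card : ℝ) ≤ d) (hde : d ≤ 2 * P.eh) (S : ℕ) (l : Fin L) :
    ∑ v, Hb G L P t S y (v, l) ≤
      (S * ((s + t ^ 2) * P.M * (2 * P.eh) ^ (2 * t - 1))) * ∑ v, y (v, l) := by
  have hI := ini_inv hP hy hd hde
  set c := (s + t ^ 2) * P.M * (2 * P.eh) ^ (2 * t - 1) with hc
  have hc0 : 0 ≤ c := by
    have := hP.e0
    have : 0 < P.M := Real.exp_pos _
    positivity
  unfold Hb
  rw [Finset.sum_comm]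
  have h1 : ∀ i ∈ range S, ∑ v, (Op (lay G L) P)^[i]
      (fun s => s.1 (v, l) * KK (lay G L) t s.1 (v, l)) (ini y) ≤ c * ∑ v, y (v, l) := by
    intro i _
    have h2 := iter_mono hP (f := fun σ : St (V × Fin L) =>
      ∑ v, σ.1 (v, l) * KK (lay G L) t σ.1 (v, l)) (g := fun σ => c * ∑ v, σ.1 (v, l))
      (fun s' h' => layer_mass hM ht hR hP h' l) i _ hI
    have h3 := congrFun (iter_sum (Γ := lay G L) (P := P) (univ : Finset V) i
      (fun v σ => σ.1 (v, l) * KK (lay G L) t σ.1 (v, l))) (ini y)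
    have h4 := congrFun (iter_smul (Γ := lay G L) (P := P) i c
      (fun σ : St (V × Fin L) => ∑ v, σ.1 (v, l))) (ini y)
    have h5 := congrFun (iter_sum (Γ := lay G L) (P := P) (univ : Finset V) i
      (fun v σ => σ.1 (v, l))) (ini y)
    rw [h3, h4, h5] at h2
    refine h2.trans (mul_le_mul_of_nonneg_left (Finset.sum_le_sum fun v _ => ?_) hc0)
    exact iter_x_le hP (v, l) i (ini y) hI
  refine (Finset.sum_le_sum h1).trans (le_of_eq ?_)
  rw [Finset.sum_const, Finset.card_range, nsmul_eq_mul]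
  ring

/-- survival of the vertices that are not bad -/
theorem layer_surv (hK : S_KST) {t : ℕ} (ht : 1 ≤ t) {P : Par} (hP : P.Ok)
    {y : V × Fin L → ℝ} (hy : ∀ p, 0 ≤ y p ∧ y p ≤ 1) {d : ℝ}
    (hd : ∀ v, ((nb G v).card : ℝ) ≤ d) (hde : d ≤ 2 * P.eh) (S : ℕ) {p : V × Fin L}
    (hp : y p = 1) {κ h Θ : ℝ} (hκ : 0 < κ) (hH : Hb G L P t S y p ≤ h)
    (hΘ : Θ = κ * (2 * P.eh) ^ 2 * S + h / ((2 * P.eh) ^ (2 * t - 2) * κ ^ t ^ 2)) (n : ℕ)
    (hn : n ≤ S) :
    1 - d / P.eh - P.q * P.M * S - P.q * S / P.ph * (d + 2 * P.q * Θ) - 2 * P.q / P.eh * Θ ≤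
      (Op (lay G L) P)^[n] (fun s => s.1 p) (ini y) := by
  have hI := ini_inv hP hy hd hde
  have hE : 0 < 2 * P.eh := by linarith [hP.e0]
  refine surv hP hI hp rfl (ini_es hy hd p) S ?_ n hn
  have h1 : ∀ j ∈ range S, (Op (lay G L) P)^[j] (fun s => s.1 p * TT (lay G L) s.1 p) (ini y) ≤
      κ * (2 * P.eh) ^ 2 + ((2 * P.eh) ^ (2 * t - 2) * κ ^ t ^ 2)⁻¹ *
        (Op (lay G L) P)^[j] (fun s => s.1 p * KK (lay G L) t s.1 p) (ini y) := by
    intro j _
    have h2 := iter_mono hP (f := fun s : St (V × Fin L) => s.1 p * TT (lay G L) s.1 p)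
      (g := fun s => κ * (2 * P.eh) ^ 2 * s.1 p + ((2 * P.eh) ^ (2 * t - 2) * κ ^ t ^ 2)⁻¹ *
        (s.1 p * KK (lay G L) t s.1 p)) (fun s' h' => by
        rcases (h' p).1.eq_or_lt with h0 | h0
        · rw [← h0]; simp
        · have h3 := hK (V × Fin L) (lay G L) t ht s'.1 p κ (2 * P.eh) hκ hE
            (fun v => (h' v).1) ((h' p).2.2.2 h0).2
          have h4 := mul_le_mul_of_nonneg_left h3 h0.le
          rw [div_eq_mul_inv] at h4
          linarith) j _ hI
    rw [iter_add, iter_smul, iter_smul] at h2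
    refine h2.trans (add_le_add ?_ le_rfl)
    refine mul_le_of_le_one_right (by positivity) ?_
    exact (iter_x_le hP p j _ hI).trans (hy p).2
  refine (Finset.sum_le_sum h1).trans ?_
  rw [Finset.sum_add_distrib, Finset.sum_const, Finset.card_range, nsmul_eq_mul,
    ← Finset.mul_sum, hΘ, div_eq_mul_inv, mul_comm h]
  refine add_le_add (le_of_eq (by ring)) ?_
  have hpos : 0 ≤ ((2 * P.eh) ^ (2 * t - 2) * κ ^ t ^ 2)⁻¹ := inv_nonneg.2 (by positivity)
  exact mul_le_mul_of_nonneg_left hH hpos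

/-! ## balls in the layered graph -/

theorem ball_lay (r : ℕ) (D : Finset (V × Fin L)) (D' : Finset V) (h : ∀ p ∈ D, p.1 ∈ D') :
    ∀ p ∈ ball (lay G L) r D, p.1 ∈ ball G r D' := by
  induction r with
  | zero => exact h
  | succ r ih =>
    intro p hp
    rw [ball_succ] at hp ⊢
    obtain ⟨c, hc, h1⟩ := mem_nbh.1 hp
    refine mem_nbh.2 ⟨c.1, ih c hc, ?_⟩
    rcases h1 with rfl | h1
    · exact Or.inl rfl
    · exact Or.inr h1.1

end Pool.Agent.K1H34.UNI
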