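import Mathlib
import Pool.Agent.K1H34.UNI.Lay

set_option autoImplicit false

/-!
# The random two-colourable set, and one phase
-/

namespace Pool.Agent.K1H34.UNI

open Finset Classical

variable {V : Type} [Fintype V] {G : SimpleGraph V} {L : ℕ}

/-- the picked vertices that are picked in their own layer, without conflict with the vertices
of much higher classes -/
noncomputable def Uset (G : SimpleGraph V) (cl : V → Fin L) (I : Finset (V × Fin L)) : Finset V :=
  univ.filter (fun u => (u, cl u) ∈ I ∧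
    ∀ u' ∈ nb G u, (cl u : ℕ) + 2 ≤ cl u' → (u', cl u') ∉ I)

theorem mem_Uset {cl : V → Fin L} {I : Finset (V × Fin L)} {u : V} :
    u ∈ Uset G cl I ↔ (u, cl u) ∈ I ∧
      ∀ u' ∈ nb G u, (cl u : ℕ) + 2 ≤ cl u' → (u', cl u') ∉ I := by simp [Uset]

theorem Uset_col {cl : V → Fin L} {I : Finset (V × Fin L)}
    (hI : ∀ a ∈ I, ∀ b ∈ I, ¬ (lay G L).Adj a b) : UHC.Col G (Uset G cl I) 2 := by
  refine ⟨fun u => (cl u : ℕ) % 2, fun v _ => Nat.mod_lt _ (by norm_num), ?_⟩
  intro u hu v hv huv h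
  rw [mem_Uset] at hu hv
  have h : (cl u : ℕ) % 2 = (cl v : ℕ) % 2 := h
  rcases lt_trichotomy (cl u : ℕ) (cl v) with h1 | h1 | h1
  · exact hu.2 v (mem_nb.2 huv) (by omega) hv.1
  · exact hI _ hu.1 _ hv.1 ⟨huv, Fin.ext h1⟩
  · exact hv.2 u (mem_nb.2 huv.symm) (by omega) hu.1

theorem Uset_congr {cl : V → Fin L} {I I' : Finset (V × Fin L)} {u : V}
    (h : ∀ u' ∈ nbh G {u}, ((u', cl u') ∈ I ↔ (u', cl u') ∈ I')) :
    u ∈ Uset G cl I ↔ u ∈ Uset G cl I' := by
  have h0 := h u (subset_nbh _ (Finset.mem_singleton_self u))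
  have h1 : ∀ u' ∈ nb G u, ((u', cl u') ∈ I ↔ (u', cl u') ∈ I') := fun u' hu' =>
    h u' (nb_subset_nbh (Finset.mem_singleton_self u) hu')
  rw [mem_Uset, mem_Uset, h0]
  constructor
  · rintro ⟨a, b⟩
    exact ⟨a, fun u' hu' hc hm => b u' hu' hc ((h1 u' hu').2 hm)⟩
  · rintro ⟨a, b⟩
    exact ⟨a, fun u' hu' hc hm => b u' hu' hc ((h1 u' hu').1 hm)⟩

/-- union of two-colourable sets -/
theorem col_biUnion {k : ℕ} (f : Fin k → Finset V) (hf : ∀ j, UHC.Col G (f j) 2) :
    UHC.Col G (univ.biUnion f) (2 * k) := by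
  have h : ∀ T : Finset (Fin k), UHC.Col G (T.biUnion f) (2 * T.card) := by
    intro T
    induction T using Finset.induction_on with
    | empty => exact ⟨fun _ => 0, by simp, by simp⟩
    | insert a T ha ih =>
      rw [Finset.biUnion_insert, Finset.card_insert_of_notMem ha]
      exact ((hf a).union ih).mono (Finset.Subset.refl _) (by omega)
  have := h univ
  rwa [Finset.card_univ, Fintype.card_fin] at this

section prob

variable {P : Par} {y : V × Fin L → ℝ} {cl : V → Fin L}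

/-- pointwise inequality -/
theorem Uset_ge (I : Finset (V × Fin L)) (u : V) (Nn : Finset V) {Bd : ℝ} (hBd : 0 < Bd) :
    (1 - 1 / Bd) * ind ((u, cl u) ∈ I) -
      ∑ u' ∈ (nb G u).filter (fun u' => (cl u : ℕ) + 2 ≤ cl u'),
        ind ((u, cl u) ∈ I ∧ (u', cl u') ∈ I) -
      1 / Bd * ∑ u' ∈ Nn.erase u, ind ((u, cl u) ∈ I ∧ (u', cl u') ∈ I) ≤
    ind (u ∈ Uset G cl I ∧ ((Uset G cl I ∩ Nn).card : ℝ) ≤ Bd) := by
  have hb : 0 < 1 / Bd := by positivity
  have n1 : 0 ≤ ∑ u' ∈ (nb G u).filter (fun u' => (cl u : ℕ) + 2 ≤ cl u'),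
      ind ((u, cl u) ∈ I ∧ (u', cl u') ∈ I) := Finset.sum_nonneg fun _ _ => ind_nonneg _
  have n2 : 0 ≤ ∑ u' ∈ Nn.erase u, ind ((u, cl u) ∈ I ∧ (u', cl u') ∈ I) :=
    Finset.sum_nonneg fun _ _ => ind_nonneg _
  have n3 : 0 ≤ 1 / Bd * ∑ u' ∈ Nn.erase u, ind ((u, cl u) ∈ I ∧ (u', cl u') ∈ I) :=
    mul_nonneg hb.le n2
  by_cases hu : (u, cl u) ∈ I
  · by_cases hU : u ∈ Uset G cl I
    · by_cases hc : ((Uset G cl I ∩ Nn).card : ℝ) ≤ Bd
      · rw [ind_true hu, ind_true ⟨hU, hc⟩]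
        linarith
      · rw [ind_true hu, ind_false (fun h => hc h.2)]
        have h1 : ((Uset G cl I ∩ Nn).card : ℝ) ≤ 1 + ∑ u' ∈ Nn.erase u,
            ind ((u, cl u) ∈ I ∧ (u', cl u') ∈ I) := by
          have h2 : Uset G cl I ∩ Nn ⊆ insert u ((Nn.erase u).filter
              (fun u' => (u, cl u) ∈ I ∧ (u', cl u') ∈ I)) := by
            intro w hw
            rw [Finset.mem_inter] at hw
            by_cases hwu : w = u
            · exact Finset.mem_insert.2 (Or.inl hwu)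
            · exact Finset.mem_insert_of_mem (Finset.mem_filter.2
                ⟨Finset.mem_erase.2 ⟨hwu, hw.2⟩, hu, (mem_Uset.1 hw.1).1⟩)
          have h3 := (Finset.card_le_card h2).trans (Finset.card_insert_le _ _)
          simp_rw [ind_eq]
          rw [← Finset.sum_filter, Finset.sum_const, nsmul_eq_mul, mul_one]
          have : ((Uset G cl I ∩ Nn).card : ℝ) ≤ (((Nn.erase u).filter
              (fun u' => (u, cl u) ∈ I ∧ (u', cl u') ∈ I)).card : ℝ) + 1 := by exact_mod_cast h3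
          linarith
        push Not at hc
        have h2 : 1 < 1 / Bd * (1 + ∑ u' ∈ Nn.erase u,
            ind ((u, cl u) ∈ I ∧ (u', cl u') ∈ I)) := by
          have h4 : 1 / Bd * Bd < 1 / Bd * (1 + ∑ u' ∈ Nn.erase u,
              ind ((u, cl u) ∈ I ∧ (u', cl u') ∈ I)) :=
            mul_lt_mul_of_pos_left (lt_of_lt_of_le hc h1) hb
          rwa [one_div_mul_cancel hBd.ne'] at h4
        linarith
    · rw [ind_true hu, ind_false (fun h => hU h.1)]
      have h1 : ∃ u' ∈ nb G u, (cl u : ℕ) + 2 ≤ cl u' ∧ (u', cl u') ∈ I := by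
        by_contra hcon
        push Not at hcon
        exact hU (mem_Uset.2 ⟨hu, fun u' hu' hc => hcon u' hu' hc⟩)
      obtain ⟨u', hu', hc, hm⟩ := h1
      have h2 : (1 : ℝ) ≤ ∑ u' ∈ (nb G u).filter (fun u' => (cl u : ℕ) + 2 ≤ cl u'),
          ind ((u, cl u) ∈ I ∧ (u', cl u') ∈ I) := by
        have h3 := Finset.single_le_sum (s := (nb G u).filter (fun u' => (cl u : ℕ) + 2 ≤ cl u'))
          (f := fun u' => ind ((u, cl u) ∈ I ∧ (u', cl u') ∈ I))
          (fun _ _ => ind_nonneg _) (Finset.mem_filter.2 ⟨hu', hc⟩)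
        refine le_trans (le_of_eq ?_) h3
        exact (ind_true ⟨hu, hm⟩).symm
      linarith
  · rw [ind_false hu]
    have := ind_nonneg (u ∈ Uset G cl I ∧ ((Uset G cl I ∩ Nn).card : ℝ) ≤ Bd)
    linarith

theorem tree_sub {X : Type} [Fintype X] {Γ : SimpleGraph X} (n : ℕ) (s : St X)
    (F F' : List (Finset X) → ℝ) :
    tree Γ P n s (fun l => F l - F' l) = tree Γ P n s F - tree Γ P n s F' := by
  have h1 := tree_add (Γ := Γ) (P := P) n s F (fun l => (-1) * F' l)
  rw [tree_smul] at h1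
  rw [sub_eq_add_neg, ← neg_one_mul, ← h1]
  exact tree_congr n s _ _ fun l => by ring

theorem tree_Uset (hP : P.Ok) (hy : ∀ p, 0 ≤ y p ∧ y p ≤ 1) {d : ℝ}
    (hd : ∀ v, ((nb G v).card : ℝ) ≤ d) (hde : d ≤ 2 * P.eh) (S : ℕ) {B Bd lam τ : ℝ}
    (hBd : 1 ≤ Bd)
    (hcl : ∀ v, (((nb G v).filter (fun u => (cl v : ℕ) + 2 ≤ cl u)).card : ℝ) ≤ B)
    (hlam : ∀ v, ∀ n ≤ S, lam ≤ (Op (lay G L) P)^[n] (fun s => s.1 (v, cl v)) (ini y))
    (hτ : τ ≤ (1 - 1 / Bd) * (P.q * S * (1 - P.q * (2 * P.eh)) * lam) -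
        (B + d / Bd) * (2 * P.M * (P.q * S) ^ 2)) (u : V) (Nn : Finset V)
    (hNn : (Nn.card : ℝ) ≤ d) :
    τ ≤ tree (lay G L) P S (ini y) (fun l =>
      ind (u ∈ Uset G cl (picked (lay G L) P (ini y) l) ∧
        ((Uset G cl (picked (lay G L) P (ini y) l) ∩ Nn).card : ℝ) ≤ Bd)) := by
  have hI := ini_inv hP hy hd hde
  have hBd0 : 0 < Bd := by linarith
  have h1 := tree_mono (Γ := lay G L) hP S (ini y) hI _ _
    (fun l => Uset_ge (G := G) (cl := cl) (picked (lay G L) P (ini y) l) u Nn hBd0)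
  refine le_trans ?_ h1
  rw [tree_sub, tree_sub, tree_smul, tree_smul, tree_sum, tree_sum]
  have h2 := le_picked' hP hI (u, cl u) S (lam := lam) (fun i hi => hlam u i hi.le)
  have hM0 : 0 < P.M := Real.exp_pos _
  have h3 : ∀ u', u' ≠ u → tree (lay G L) P S (ini y)
      (fun l => ind ((u, cl u) ∈ picked (lay G L) P (ini y) l ∧
        (u', cl u') ∈ picked (lay G L) P (ini y) l)) ≤
      2 * P.M * (P.q * S) ^ 2 := by
    intro u' hne
    refine (pair_le' hP (fun h => hne (Prod.mk.inj h).1.symm) S (ini y) hI).trans ?_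
    have h4 : (ini y).1 (u, cl u) + (ini y).1 (u', cl u') ≤ 2 := by
      have a := (hy (u, cl u)).2
      have b := (hy (u', cl u')).2
      show y (u, cl u) + y (u', cl u') ≤ 2
      linarith
    calc P.q ^ 2 * P.M * ((ini y).1 (u, cl u) + (ini y).1 (u', cl u')) * (S : ℝ) ^ 2 ≤
          P.q ^ 2 * P.M * 2 * (S : ℝ) ^ 2 := by
          refine mul_le_mul_of_nonneg_right (mul_le_mul_of_nonneg_left h4 ?_) (sq_nonneg _)
          positivity
      _ = _ := by ring
  have hc0 : 0 ≤ 2 * P.M * (P.q * S) ^ 2 := by positivity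
  have h4 : ∑ u' ∈ (nb G u).filter (fun u' => (cl u : ℕ) + 2 ≤ cl u'),
        tree (lay G L) P S (ini y) (fun l => ind ((u, cl u) ∈ picked (lay G L) P (ini y) l ∧
          (u', cl u') ∈ picked (lay G L) P (ini y) l)) ≤
      B * (2 * P.M * (P.q * S) ^ 2) := by
    refine (Finset.sum_le_sum fun u' hu' => h3 u' (fun h => ?_)).trans ?_
    · rw [h] at hu'
      exact notMem_nb_self u (Finset.mem_filter.1 hu').1
    · rw [Finset.sum_const, nsmul_eq_mul]
      exact mul_le_mul_of_nonneg_right (hcl u) hc0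
  have h5 : ∑ u' ∈ Nn.erase u, tree (lay G L) P S (ini y)
        (fun l => ind ((u, cl u) ∈ picked (lay G L) P (ini y) l ∧
          (u', cl u') ∈ picked (lay G L) P (ini y) l)) ≤
      d * (2 * P.M * (P.q * S) ^ 2) := by
    refine (Finset.sum_le_sum fun u' hu' => h3 u' (Finset.ne_of_mem_erase hu')).trans ?_
    rw [Finset.sum_const, nsmul_eq_mul]
    refine mul_le_mul_of_nonneg_right (le_trans ?_ hNn) hc0
    exact_mod_cast Finset.card_le_card (Finset.erase_subset _ _)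
  have h6 : 0 ≤ 1 - 1 / Bd := by
    have : 1 / Bd ≤ 1 := by rw [div_le_one hBd0]; exact hBd
    linarith
  have h7 := mul_le_mul_of_nonneg_left h2 h6
  have h8 := mul_le_mul_of_nonneg_left h5 (by positivity : 0 ≤ 1 / Bd)
  have h9 : (B + d / Bd) * (2 * P.M * (P.q * S) ^ 2) = B * (2 * P.M * (P.q * S) ^ 2) +
      1 / Bd * (d * (2 * P.M * (P.q * S) ^ 2)) := by ring
  rw [h9] at hτ
  linarith

end prob

/-! ## the product space -/

/-- flattening the coordinates -/
def flat (k S : ℕ) (X C : Type) :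
    (Fin k × (Fin S × X) → C) ≃ (Fin k → Fin S → X → C) :=
  (Equiv.curry _ _ _).trans (Equiv.piCongrRight fun _ => Equiv.curry _ _ _)

theorem sum_flat {k S : ℕ} {X C : Type} [Fintype X] [Fintype C] (w : C → ℝ)
    (Q : (Fin k → Fin S → X → C) → Prop) :
    ∑ ω ∈ univ.filter (fun ω : Fin k × (Fin S × X) → C => Q (flat k S X C ω)),
      ∏ t, w (ω t) =
    ∑ ω ∈ univ.filter (fun ω : Fin k → Fin S → X → C => Q ω),
      ∏ j, ∏ i, ∏ v, w (ω j i v) := by
  refine Finset.sum_equiv (flat k S X C) ?_ ?_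
  · intro ω
    simp
  · intro ω _
    rw [Fintype.prod_prod_type]
    refine Finset.prod_congr rfl fun j _ => ?_
    rw [Fintype.prod_prod_type]
    rfl

end Pool.Agent.K1H34.UNI
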