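import Mathlib

set_option autoImplicit false

/-!
# Choice of the parameters
-/

namespace Pool.Agent.K1H34.UNI

open Finset Real

/-- the parameters can be chosen, if the degree `exp y` is large -/
def S_NUM : Prop :=
  ∀ t s : ℕ, 1 ≤ t → ∃ y0 : ℝ, 1 ≤ y0 ∧ ∀ y : ℝ, y0 ≤ y →
    ∃ (q eh ph κ B Bd h Θ lam τ : ℝ) (S k : ℕ),
      0 < q ∧ 0 < eh ∧ 0 < ph ∧ 0 < κ ∧ 0 < B ∧ 1 ≤ Bd ∧ 0 < h ∧ 0 < τ ∧
      q * exp (4 * ph) ≤ 1 / 2 ∧ q * (2 * eh) ≤ 1 / 2 ∧ exp y ≤ 2 * eh ∧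
      4 * (S * ((s + t ^ 2) * exp (4 * ph) * (2 * eh) ^ (2 * t - 1))) * (exp y / B + 1) ≤ h ∧
      Θ = κ * (2 * eh) ^ 2 * S + h / ((2 * eh) ^ (2 * t - 2) * κ ^ t ^ 2) ∧
      lam = 1 - exp y / eh - q * exp (4 * ph) * S - q * S / ph * (exp y + 2 * q * Θ) -
        2 * q / eh * Θ ∧
      τ ≤ (1 - 1 / Bd) * (q * S * (1 - q * (2 * eh)) * lam) -
        (B + exp y / Bd) * (2 * exp (4 * ph) * (q * S) ^ 2) ∧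
      2 ≤ k * τ ∧ (2 * k : ℝ) ≤ 600 * exp y / y ∧
      4 * exp (-((exp y / 2 - exp (-1) * exp y) / Bd)) *
        ((⌊exp y⌋₊ + 1) ^ (2 * (2 * S + 2)) : ℕ) ≤ 1

end Pool.Agent.K1H34.UNI
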