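import Mathlib
import Pool.Agent.K1H34.UNI.Asm
import Pool.Agent.K1H34.UNI.Stm2

set_option autoImplicit false

/-!
# One phase: the degrees are halved
-/

namespace Pool.Agent.K1H34.UNI

open Finset Classical

variable {V : Type} [Fintype V]

/-- the local lemma, for any decidable equality of the coordinates -/
theorem wlll' (hW : S_WLLL) (T C ι : Type) [Fintype T] [DecidableEq T] [Fintype C] [Fintype ι]
    (w : C → ℝ) (hw0 : ∀ c, 0 ≤ w c) (hw1 : ∑ c, w c = 1) (B : ι → (T → C) → Prop)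
    (S : ι → Finset T) (hdep : ∀ i, Dep (B i) (S i)) (p : ℝ) (D : ℕ) (hp : 0 ≤ p)
    (h1 : ∀ i, ∑ ω ∈ univ.filter (fun ω : T → C => B i ω), ∏ t, w (ω t) ≤ p)
    (h2 : ∀ i, (univ.filter (fun j => ¬ Disjoint (S i) (S j))).card ≤ D)
    (h4 : 4 * p * D ≤ 1) (hD : 1 ≤ D) : ∃ ω : T → C, ∀ i, ¬ B i ω := by
  rename_i inst _ _
  have hd : inst = fun a b => Classical.propDecidable (a = b) := Subsingleton.elim _ _
  subst hd
  exact hW T C ι w hw0 hw1 B S hdep p D hp h1 h2 h4 hD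

/-- the local lemma for independent random sets that are determined locally -/
theorem lll_flat (hW : S_WLLL) (G : SimpleGraph V) {X C : Type} [Fintype X] [Fintype C]
    (w : C → ℝ) (hw0 : ∀ c, 0 ≤ w c) (hw1 : ∑ c, w c = 1) (k S R : ℕ)
    (f : (Fin S → X → C) → Finset V) (loc : X → V) (y p : ℝ) (hp : 0 ≤ p) (D0 : ℕ)
    (hD0 : ∀ v, (nb G v).card ≤ D0) (hlll : 4 * p * ((D0 + 1) ^ (2 * R) : ℕ) ≤ 1)
    (h1 : ∀ v : V, ∑ ω ∈ univ.filter (fun ω : Fin k → (Fin S → X → C) =>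
      y ≤ ((nb G v \ univ.biUnion (fun j => f (ω j))).card : ℝ)),
        ∏ j, ∏ i, ∏ v, w (ω j i v) ≤ p)
    (h2 : ∀ v, ∀ ω ω' : Fin S → X → C, (∀ i b, loc b ∈ ball G R {v} → ω i b = ω' i b) →
      ∀ u ∈ nb G v, (u ∈ f ω ↔ u ∈ f ω')) :
    ∃ ω : Fin k → Fin S → X → C, ∀ v,
      ((nb G v \ univ.biUnion (fun j => f (ω j))).card : ℝ) < y := by
  set bad : V → (Fin k × (Fin S × X) → C) → Prop := fun v ω =>
    y ≤ ((nb G v \ univ.biUnion (fun j => f (flat k S X C ω j))).card : ℝ) with hbad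
  set Sv : V → Finset (Fin k × (Fin S × X)) := fun v =>
    univ.filter (fun c => loc c.2.2 ∈ ball G R {v}) with hSv
  have hdep : ∀ v, Dep (bad v) (Sv v) := by
    intro v ω ω' hω hb
    have key : ∀ j, ∀ u ∈ nb G v, (u ∈ f (flat k S X C ω j) ↔
        u ∈ f (flat k S X C ω' j)) := by
      intro j u hu
      refine h2 v _ _ (fun i b hb => ?_) u hu
      refine hω (j, (i, b)) ?_
      rw [hSv, Finset.mem_filter]
      exact ⟨Finset.mem_univ _, hb⟩
    have key2 : nb G v \ univ.biUnion (fun j => f (flat k S X C ω j)) =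
        nb G v \ univ.biUnion (fun j => f (flat k S X C ω' j)) := by
      ext u
      rw [Finset.mem_sdiff, Finset.mem_sdiff, Finset.mem_biUnion, Finset.mem_biUnion]
      constructor
      · rintro ⟨a, b⟩
        exact ⟨a, fun ⟨j, hj, h1⟩ => b ⟨j, hj, (key j u a).2 h1⟩⟩
      · rintro ⟨a, b⟩
        exact ⟨a, fun ⟨j, hj, h1⟩ => b ⟨j, hj, (key j u a).1 h1⟩⟩
    show y ≤ _
    rw [← key2]
    exact hb
  have hsum : ∀ v, ∑ ω ∈ univ.filter (fun ω : Fin k × (Fin S × X) → C => bad v ω),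
      ∏ t, w (ω t) ≤ p := by
    intro v
    have e := sum_flat (k := k) (S := S) (X := X) w (fun ω : Fin k → Fin S → X → C =>
        y ≤ ((nb G v \ univ.biUnion (fun j => f (ω j))).card : ℝ))
    exact e.le.trans (h1 v)
  have hcard : ∀ v, (univ.filter (fun j => ¬ Disjoint (Sv v) (Sv j))).card ≤
      (D0 + 1) ^ (2 * R) := by
    intro v
    have h1 : univ.filter (fun j => ¬ Disjoint (Sv v) (Sv j)) ⊆ ball G (2 * R) {v} := by
      intro v' hv'
      rw [Finset.mem_filter, Finset.not_disjoint_iff] at hv'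
      obtain ⟨_, c, hc1, hc2⟩ := hv'
      rw [hSv, Finset.mem_filter] at hc1 hc2
      have h2 := ball_symm _ hc2.2
      rw [two_mul, ball_add]
      refine ball_mono _ ?_ h2
      rw [Finset.singleton_subset_iff]
      exact hc1.2
    refine (Finset.card_le_card h1).trans ?_
    have h2 := ball_card hD0 (2 * R) {v}
    rwa [Finset.card_singleton, one_mul] at h2
  obtain ⟨ω, hω⟩ : ∃ ω, ∀ v, ¬ bad v ω := by
    exact wlll' hW (Fin k × (Fin S × X)) C V w hw0 hw1 bad Sv hdep p ((D0 + 1) ^ (2 * R)) hp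
      hsum hcard hlll (Nat.one_le_pow _ _ (Nat.succ_pos _))
  exact ⟨flat k S X C ω, fun v => not_le.1 (hω v)⟩

/-- many independent copies of a locally determined random set -/
theorem copies (hW : S_WLLL) (hC : S_CONC) (hS : S_SRC) (hO : S_ONE) (G : SimpleGraph V)
    {X : Type} [Fintype X] {Γ : SimpleGraph X} {P : Par} (hP : P.Ok) {s : St X}
    (hI : Inv Γ P s) {d Bd τ : ℝ} {S k : ℕ} (hd : ∀ v, ((nb G v).card : ℝ) ≤ d)
    (hBd : 0 < Bd) (hτ0 : 0 ≤ τ) (g : Finset X → Finset V) (loc : X → V)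
    (hcov : ∀ (u : V) (Nn : Finset V), (Nn.card : ℝ) ≤ d →
      τ ≤ tree Γ P S s (fun l => ind (u ∈ g (picked Γ P s l) ∧
        ((g (picked Γ P s l) ∩ Nn).card : ℝ) ≤ Bd)))
    (hloc : ∀ v, ∃ D : Finset X, (∀ q ∈ ball Γ (2 * S) D, loc q ∈ ball G (2 * S + 2) {v}) ∧
      ∀ I I' : Finset X, (∀ a ∈ D, (a ∈ I ↔ a ∈ I')) → ∀ u ∈ nb G v, (u ∈ g I ↔ u ∈ g I'))
    (hk : 2 ≤ k * τ)
    (hlll : 4 * Real.exp (-((d / 2 - Real.exp (-1) * d) / Bd)) *
        ((⌊d⌋₊ + 1) ^ (2 * (2 * S + 2)) : ℕ) ≤ 1) :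
    ∃ l : Fin k → List (Finset X), ∀ v,
      ((nb G v \ univ.biUnion (fun j => g (picked Γ P s (l j)))).card : ℝ) ≤ d / 2 := by
  obtain ⟨C, hCf, w, E, hw0, hw1, hgood⟩ := exists_source hS hP hI S
  set f : (Fin S → X → C) → Finset V := fun ω => g (picked Γ P s (As Γ P E S s ω)) with hf
  set W : (Fin S → X → C) → ℝ := fun ω => ∏ i, ∏ v, w (ω i v) with hWdef
  have hlaw := sum_As hO w hw1 E S s hgood
  have hW1 : ∑ ω, W ω = 1 := by
    have := hlaw (fun _ => 1)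
    rw [tree_const] at this
    simpa [hWdef] using this
  have hW0 : ∀ ω, 0 ≤ W ω := fun ω =>
    Finset.prod_nonneg fun i _ => Finset.prod_nonneg fun v _ => hw0 _
  have hcov' : ∀ (u : V) (Nn : Finset V), (Nn.card : ℝ) ≤ d →
      τ ≤ ∑ ω ∈ univ.filter (fun ω => u ∈ f ω ∧ ((f ω ∩ Nn).card : ℝ) ≤ Bd), W ω := by
    intro u Nn hNn
    refine (hcov u Nn hNn).trans (le_of_eq ?_)
    rw [← hlaw, Finset.sum_filter]
    refine Finset.sum_congr rfl fun ω _ => ?_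
    rw [ind_eq, mul_ite, mul_one, mul_zero]
  set p := Real.exp (-((d / 2 - Real.exp (-1) * d) / Bd)) with hp
  have hconc : ∀ v : V, ∑ ω ∈ univ.filter (fun ω : Fin k → (Fin S → X → C) =>
      d / 2 ≤ ((nb G v \ univ.biUnion (fun j => f (ω j))).card : ℝ)), ∏ j, W (ω j) ≤ p := by
    intro v
    refine (hC (Fin S → X → C) V W hW0 hW1 f (nb G v) Bd τ hBd hτ0
      (fun u _ => hcov' u (nb G v) (hd v)) k (d / 2)).trans ?_
    rw [hp, Real.exp_le_exp, neg_le_neg_iff]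
    refine div_le_div_of_nonneg_right ?_ hBd.le
    have h1 : Real.exp (-(k * τ / 2)) ≤ Real.exp (-1) := by
      rw [Real.exp_le_exp]; linarith
    have h2 : Real.exp (-(k * τ / 2)) * ((nb G v).card : ℝ) ≤ Real.exp (-1) * d :=
      mul_le_mul h1 (hd v) (Nat.cast_nonneg _) (Real.exp_pos _).le
    linarith
  have hdN : ∀ v, (nb G v).card ≤ ⌊d⌋₊ := fun v => Nat.le_floor (hd v)
  obtain ⟨ω, hω⟩ := lll_flat hW G w hw0 hw1 k S (2 * S + 2) f loc (d / 2) p
    (Real.exp_pos _).le ⌊d⌋₊ hdN hlll hconc (by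
      intro v ω ω' hωω u hu
      obtain ⟨D, hD1, hD2⟩ := hloc v
      refine hD2 _ _ (fun a ha => ?_) u hu
      exact picked_local E S D s s ω ω' (fun _ _ => ⟨rfl, rfl⟩)
        (fun i b hb => hωω i b (hD1 b hb)) a ha)
  exact ⟨fun j => As Γ P E S s (ω j), fun v => (hω v).le⟩

/-- one phase -/
theorem half (hW : S_WLLL) (hC : S_CONC) (hM : S_MASS) (hK : S_KST) (hL : S_LEV) (hS : S_SRC)
    (hO : S_ONE) {t s : ℕ} (ht : 1 ≤ t) (G : SimpleGraph V) (hR : UHC.Rare G t s) {d : ℝ}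
    (hd0 : 0 ≤ d) (hd : ∀ v, ((nb G v).card : ℝ) ≤ d) {P : Par} (hP : P.Ok)
    (hde : d ≤ 2 * P.eh) {κ B Bd h Θ lam τ : ℝ} {S k : ℕ} (hκ : 0 < κ) (hB : 0 < B)
    (hBd : 1 ≤ Bd) (hh : 0 < h) (hτ0 : 0 < τ)
    (hmass : 4 * (S * ((s + t ^ 2) * P.M * (2 * P.eh) ^ (2 * t - 1))) * (d / B + 1) ≤ h)
    (hΘ : Θ = κ * (2 * P.eh) ^ 2 * S + h / ((2 * P.eh) ^ (2 * t - 2) * κ ^ t ^ 2))
    (hlam : lam = 1 - d / P.eh - P.q * P.M * S - P.q * S / P.ph * (d + 2 * P.q * Θ) -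
      2 * P.q / P.eh * Θ)
    (hτ : τ ≤ (1 - 1 / Bd) * (P.q * S * (1 - P.q * (2 * P.eh)) * lam) -
        (B + d / Bd) * (2 * P.M * (P.q * S) ^ 2)) (hk : 2 ≤ k * τ)
    (hlll : 4 * Real.exp (-((d / 2 - Real.exp (-1) * d) / Bd)) *
        ((⌊d⌋₊ + 1) ^ (2 * (2 * S + 2)) : ℕ) ≤ 1) :
    ∃ U : Finset V, UHC.Col G U (2 * k) ∧ ∀ v, ((nb G v \ U).card : ℝ) ≤ d / 2 := by
  set L := Fintype.card V + 1 with hLdef
  have hM0 : 0 < P.M := Real.exp_pos _
  have he0 := hP.e0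
  obtain ⟨cl, y, hy, hy1, hyH, hcl⟩ := hL V G L (Hb G L P t S)
    (S * ((s + t ^ 2) * P.M * (2 * P.eh) ^ (2 * t - 1))) h d B (Hb_cont P t S)
    (fun y hy p => Hb_nonneg hP hy hd hde t S p)
    (fun y hy l => Hb_mass hM ht hR hP hy hd hde S l) hd hh hB (by positivity) hd0 hmass
    (by rw [hLdef]; omega) (by
      rw [hLdef, Nat.add_sub_cancel]
      exact Nat.lt_two_pow_self)
  have hI := ini_inv hP hy hd hde
  have hlam' : ∀ v, ∀ n ≤ S, lam ≤
      (Op (lay G L) P)^[n] (fun s => s.1 (v, cl v)) (ini y) := by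
    intro v n hn
    rw [hlam]
    exact layer_surv hK ht hP hy hd hde S (hy1 v) hκ (hyH v) hΘ n hn
  obtain ⟨l, hl⟩ := copies hW hC hS hO G hP hI hd (by linarith : 0 < Bd) hτ0.le
    (Uset G cl) (fun p => p.1) (tree_Uset hP hy hd hde S hBd hcl hlam' hτ) (by
      intro v
      set D : Finset (V × Fin L) := univ.filter
        (fun x => x.1 ∈ ball G 2 {v} ∧ x.2 = cl x.1) with hD
      refine ⟨D, fun q hq => ?_, fun I I' hII u hu => Uset_congr fun u' hu' => hII _ ?_⟩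
      · rw [ball_add]
        refine ball_lay (2 * S) D (ball G 2 {v}) (fun x hx => ?_) q hq
        rw [hD, Finset.mem_filter] at hx
        exact hx.2.1
      · rw [hD, Finset.mem_filter]
        refine ⟨Finset.mem_univ _, ?_, rfl⟩
        rw [show (2 : ℕ) = 1 + 1 by norm_num, ball_succ]
        refine nbh_mono ?_ hu'
        rw [Finset.singleton_subset_iff, show (1 : ℕ) = 0 + 1 by norm_num, ball_succ, ball_zero]
        exact nb_subset_nbh (Finset.mem_singleton_self v) hu) hk hlll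
  exact ⟨univ.biUnion (fun j => Uset G cl (picked (lay G L) P (ini y) (l j))),
    col_biUnion _ (fun j => Uset_col (picked_indep _ _)), hl⟩

end Pool.Agent.K1H34.UNI
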