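import Mathlib
import Pool.Agent.K1H34.UNI.Half
import Pool.Agent.K1H34.UHC.Main

set_option autoImplicit false

/-!
# One constant for all graphs with few common neighbours of `K_{t,t}`
-/

namespace Pool.Agent.K1H34.UNI

open Finset Classical Filter

/-- one phase, with the parameters chosen -/
theorem phase0 (hW : S_WLLL) (hC : S_CONC) (hM : S_MASS) (hK : S_KST) (hL : S_LEV) (hS : S_SRC)
    (hO : S_ONE) (hN : S_NUM) (t s : ℕ) (ht : 1 ≤ t) :
    ∃ y0 : ℝ, 1 ≤ y0 ∧ ∀ y : ℝ, y0 ≤ y → ∃ K : ℕ, (K : ℝ) ≤ 600 * Real.exp y / y ∧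
      ∀ (V : Type) [Fintype V], UHC.Mach V t s (Real.exp y) K 0 := by
  obtain ⟨y0, h0, hy0⟩ := hN t s ht
  refine ⟨y0, h0, fun y hy => ?_⟩
  obtain ⟨q, eh, ph, κ, B, Bd, h, Θ, lam, τ, S, k, c1, c2, c3, c4, c5, c6, c7, c8, c9, c10,
    c11, c12, c13, c14, c15, c16, c17, c18⟩ := hy0 y hy
  refine ⟨2 * k, by push_cast; exact c17, fun V _ G hR hdeg U w hw => ?_⟩
  set P : Par := ⟨q, eh, ph⟩ with hP
  have hPok : P.Ok := ⟨c1, c2, c3, c9, c10⟩
  have hnb : ∀ v, nb G v = UHC.N G univ v := fun v => rfl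
  obtain ⟨U1, hcol, hd1⟩ := half hW hC hM hK hL hS hO ht G hR (Real.exp_pos y).le
    (fun v => by rw [hnb]; exact hdeg v) hPok c11 (κ := κ) (B := B) (Bd := Bd) (h := h)
    (Θ := Θ) (lam := lam) (τ := τ) (S := S) (k := k) c4 c5 c6 c7 c8 c12 c13 c14 c15 c16 c18
  refine ⟨U \ U1, Finset.sdiff_subset, ∅, Finset.empty_subset _, ?_, ?_, by simp⟩
  · rw [Finset.union_empty]
    refine hcol.mono ?_ le_rfl
    intro v hv
    rw [Finset.mem_sdiff, Finset.mem_sdiff] at hv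
    by_contra hcon
    exact hv.2 ⟨hv.1, hcon⟩
  · intro v _
    refine le_trans ?_ (hd1 v)
    have h1 : UHC.N G (U \ U1) v ⊆ nb G v \ U1 := by
      intro u hu
      rw [UHC.mem_N, Finset.mem_sdiff] at hu
      rw [Finset.mem_sdiff, mem_nb]
      exact ⟨hu.2, hu.1.2⟩
    exact_mod_cast Finset.card_le_card h1

/-- **one constant** -/
theorem all_graphs (hW : S_WLLL) (hC : S_CONC) (hM : S_MASS) (hK : S_KST) (hL : S_LEV)
    (hS : S_SRC) (hO : S_ONE) (hN : S_NUM) (t s : ℕ) (ht : 1 ≤ t) :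
    ∃ y0 : ℝ, ∀ y, y0 ≤ y → ∀ (V : Type) [Fintype V] (G : SimpleGraph V), UHC.Rare G t s →
      (∀ u, ((UHC.N G univ u).card : ℝ) ≤ Real.exp y) →
      ∃ k : ℕ, (k : ℝ) ≤ 1400 * Real.exp y / y ∧ UHC.Col G univ k := by
  obtain ⟨y0, _, hy0⟩ := phase0 hW hC hM hK hL hS hO hN t s ht
  have e1 := UHC.ev_pow 1 2 (show (0 : ℝ) < 1 / 10 by norm_num)
  have e2 := UHC.ev_pow 2 10 (show (0 : ℝ) < 1 by norm_num)
  obtain ⟨y1, hy1⟩ := Filter.eventually_atTop.1 (e1.and (e2.and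
    ((eventually_ge_atTop (2000 : ℝ)).and (eventually_ge_atTop (2 * y0)))))
  refine ⟨y1, fun y hy V _ G hR hdeg => ?_⟩
  obtain ⟨e1, e2, ybig, yy0⟩ := hy1 y hy
  simp only [pow_one, one_mul] at e1 e2
  have yp : 0 < y := by linarith
  set D := Real.exp y with hD
  have hDp : 0 < D := Real.exp_pos _
  set J : ℕ := Nat.clog 2 ⌈y⌉₊ with hJ
  have hJ1 : y ≤ 2 ^ J := by
    have h1 : ⌈y⌉₊ ≤ 2 ^ J := Nat.le_pow_clog (by norm_num) _
    have h2 : (⌈y⌉₊ : ℝ) ≤ 2 ^ J := by exact_mod_cast h1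
    exact (Nat.le_ceil y).trans h2
  have hJ2 : ∀ j < J, (2 : ℝ) ^ j ≤ 2 * y := by
    intro j hj
    have h1 : 2 ^ j < ⌈y⌉₊ := Nat.pow_lt_of_lt_clog (by omega)
    have h2 : ((2 : ℝ)) ^ j < ⌈y⌉₊ := by exact_mod_cast h1
    have h3 := Nat.ceil_lt_add_one yp.le
    linarith
  -- the logarithms of the degrees
  set yj : ℕ → ℝ := fun j => y - j * Real.log 2 with hyj
  have hexp : ∀ j, Real.exp (yj j) = D / 2 ^ j := by
    intro j
    simp only [hyj]
    rw [Real.exp_sub, Real.exp_nat_mul, Real.exp_log (by norm_num)]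
  have hyj1 : ∀ j < J, 9 / 10 * y ≤ yj j := by
    intro j hj
    simp only [hyj]
    have h1 : Real.exp (j * Real.log 2) ≤ Real.exp (1 / 10 * y) := by
      rw [Real.exp_nat_mul, Real.exp_log (by norm_num)]
      exact (hJ2 j hj).trans e1
    rw [Real.exp_le_exp] at h1
    linarith
  have hex : ∀ j, ∃ K : ℕ, j < J → ((K : ℝ) ≤ 600 * Real.exp (yj j) / yj j ∧
      UHC.Mach V t s (D / 2 ^ j) K 0) := by
    intro j
    by_cases hj : j < J
    · obtain ⟨K, a, b⟩ := hy0 (yj j) (by linarith [hyj1 j hj])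
      exact ⟨K, fun _ => ⟨a, by rw [← hexp j]; exact b V⟩⟩
    · exact ⟨0, fun h => absurd h hj⟩
  choose K hK' using hex
  obtain ⟨R, _, h1, h2⟩ := UHC.iterate (t := t) (s := s) (ε := 0) le_rfl J D K
    (fun j hj => (hK' j hj).2) hDp.le G hR univ (fun v _ => hdeg v) (fun _ => 1)
    (fun _ => zero_le_one)
  have hR0 : R = ∅ := by
    rw [mul_zero, zero_mul, Finset.sum_const, nsmul_eq_mul, mul_one] at h2
    have : R.card ≤ 0 := by exact_mod_cast h2
    exact Finset.card_eq_zero.1 (Nat.le_zero.1 this)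
  rw [hR0, Finset.sdiff_empty] at h1
  refine ⟨_, ?_, h1⟩
  push_cast
  have k1 : ∀ j ∈ range J, (K j : ℝ) ≤ 600 / (9 / 10) * D / y * (1 / 2) ^ j := by
    intro j hj
    rw [Finset.mem_range] at hj
    have h3 := hyj1 j hj
    have h4 : 0 < yj j := by linarith
    refine (hK' j hj).1.trans ?_
    rw [hexp, div_le_iff₀ h4]
    have h7 : 600 / (9 / 10) * D / y * (1 / 2) ^ j * yj j =
        600 * (D / 2 ^ j) * (yj j / (9 / 10 * y)) := by
      rw [one_div, inv_pow]; field_simp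
    rw [h7]
    have h8 : 1 ≤ yj j / (9 / 10 * y) := by
      rw [le_div_iff₀ (by positivity)]; linarith
    have h9 : 0 ≤ 600 * (D / 2 ^ j) := by positivity
    nlinarith
  have k2 : ∑ j ∈ range J, (K j : ℝ) ≤ 600 / (9 / 10) * D / y * 2 := by
    refine (Finset.sum_le_sum k1).trans ?_
    rw [← Finset.mul_sum]
    exact mul_le_mul_of_nonneg_left (UHC.sum_halves J) (by positivity)
  have k3 : ((⌊D / 2 ^ J⌋₊ : ℕ) : ℝ) ≤ D / y := by
    refine (Nat.floor_le (by positivity)).trans ?_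
    exact div_le_div_of_nonneg_left hDp.le yp hJ1
  have k4 : 1 ≤ D / y := by
    rw [le_div_iff₀ yp]
    nlinarith
  have k5 : 600 / (9 / 10) * D / y * 2 + (D / y + D / y) ≤ 1400 * D / y := by
    have h3 : 1400 * D / y = 1400 * (D / y) := by ring
    have h4 : 600 / (9 / 10) * D / y * 2 = 4000 / 3 * (D / y) := by ring
    have h5 : 0 ≤ D / y := by positivity
    rw [h3, h4]
    linarith
  linarith

end Pool.Agent.K1H34.UNI
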