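import Mathlib
import Pool.Agent.K1H34.UNI.Final
import Pool.Agent.K1H97.UNI.WLLL
import Pool.Agent.K1H97.UNI.Conc
import Pool.Agent.K1H97.UNI.Src
import Pool.Agent.K1H31.UNI.Mass
import Pool.Agent.K1H45.UNI.KST
import Pool.Agent.K1H10.UNI.Lev
import Pool.Agent.K1H65.UN.Num
import Pool.Agent.TH855.CF

set_option autoImplicit false

/-!
# `c(F)` is bounded by a constant for all three-colourable graphs
-/

namespace Pool.Agent.K1H34.UNI

open Finset Classical Filter Pool.Agent.TH855 Pool.Agent.Helper311.Glue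
open scoped ENNReal

theorem upTo_three {W : Type} [Fintype W] (F : SimpleGraph W) (hF : F.Colorable 3) :
    UpTo F 1400 := by
  obtain ⟨col⟩ := hF
  obtain ⟨y0, hy0⟩ := all_graphs Pool.Agent.K1H97.UNI.t_WLLL Pool.Agent.K1H97.UNI.t_CONC
    Pool.Agent.K1H31.UNI.t_MASS Pool.Agent.K1H45.UNI.t_KST Pool.Agent.K1H10.UNI.s_lev
    Pool.Agent.K1H97.UNI.t_SRC Pool.Agent.K1H97.UNI.t_ONE Pool.Agent.K1H65.UN.t_NUM
    (Fintype.card W + 1) (Fintype.card W) (Nat.succ_pos _)
  intro ε hε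
  refine ⟨max ⌈Real.exp y0⌉₊ 3, fun Δ hΔ V _ G _ hfree hmax => ?_⟩
  have h3 : 3 ≤ Δ := (le_max_right _ _).trans hΔ
  have hΔ3 : (3 : ℝ) ≤ Δ := by exact_mod_cast h3
  have hΔ0 : (0 : ℝ) < Δ := by linarith
  have hexp : Real.exp (Real.log Δ) = Δ := Real.exp_log hΔ0
  have hlog : 0 < Real.log Δ := Real.log_pos (by linarith)
  have hy : y0 ≤ Real.log Δ := by
    rw [Real.le_log_iff_exp_le hΔ0]
    have h1 : ⌈Real.exp y0⌉₊ ≤ Δ := (le_max_left _ _).trans hΔ
    exact (Nat.le_ceil _).trans (by exact_mod_cast h1)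
  obtain ⟨k, hk, c, a, b⟩ := hy0 (Real.log Δ) hy V G (UHC.rare_of_free F col G hfree) (by
    intro u
    rw [hexp]
    have h1 : (UHC.N G univ u).card ≤ Δ := by
      rw [← hmax]
      refine le_trans (le_of_eq ?_) (G.degree_le_maxDegree u)
      rw [← SimpleGraph.card_neighborFinset_eq_degree]
      congr 1
      ext v
      rw [UHC.mem_N, SimpleGraph.mem_neighborFinset]
      simp
    exact_mod_cast h1)
  rw [hexp] at hk
  refine ⟨k, ⟨SimpleGraph.Coloring.mk (fun v => (⟨c v, a v (Finset.mem_univ v)⟩ : Fin k)) ?_⟩, ?_⟩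
  · intro u v huv h4
    exact b u (Finset.mem_univ u) v (Finset.mem_univ v) huv (congrArg Fin.val h4)
  · refine hk.trans ?_
    rw [mul_div_assoc]
    refine mul_le_mul_of_nonneg_right (by linarith) (by positivity)

theorem c_three {W : Type} [Fintype W] (F : SimpleGraph W) (hF : F.Colorable 3) :
    c F ≤ 1400 := by
  have h := c_le_of_upTo F 1400 (by norm_num) (upTo_three F hF)
  refine h.trans (le_of_eq ?_)
  rw [ENNReal.ofReal_ofNat]

end Pool.Agent.K1H34.UNI
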